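import Pool.Agent.P.MP_6d14ae_al.W.Ae
import Pool.Agent.P.MP_6d14ae_al.Z.Hal

/-! Quotients with at most four points. -/

set_option autoImplicit false

namespace Pool.Agent.P.MP_6d14ae_al.F

open MulAction T V Equiv
open S hiding Dat Lay c_one c_div facN ext_b triK next chi chi_one

theorem q1 : ∀ γ : Perm (Fin 4), γ ^ 3 = 1 ∨ γ ^ 4 = 1 := by decide +kernel

theorem q2 : ∀ (γ : Perm (Fin 4)) (c : Fin 4), γ c = c → γ ^ 3 ≠ 1 →
    γ * γ = 1 ∧ (∃ d, γ d ≠ d) ∧ ∀ a, γ a ≠ a → ∀ l, γ l = l ∨ l = a ∨ l = γ a := by decide +kernel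

theorem q3 : ∀ (γ h : Perm (Fin 4)) (c a : Fin 4), γ c = c → γ ^ 3 ≠ 1 → γ a ≠ a →
    h a = a ∨ (γ a = h a ∧ γ (h a) = a) ∨ ((h * γ * h⁻¹) a = h a ∧ (h * γ * h⁻¹) (h a) = a) ∨
      ((γ * (h * γ * h⁻¹) * γ) a = h a ∧ (γ * (h * γ * h⁻¹) * γ) (h a) = a) ∨ h (h a) = a ∨
      ((γ * h) a = h a ∧ (γ * h) (h a) = a) := by decide +kernel

theorem q4 : ∀ (γ u : Perm (Fin 4)) (c a : Fin 4), γ c = c → γ ^ 3 ≠ 1 → γ a ≠ a → u ^ 3 = 1 →
    u ≠ 1 → ∃ i : Fin 4, ![u, γ * u * γ, γ * u, γ * u * u] i a = a ∧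
      γ (![u, γ * u * γ, γ * u, γ * u * u] i (γ a)) = ![u, γ * u * γ, γ * u, γ * u * u] i (γ a) := by
  decide +kernel

theorem q5 : ∀ (τ u : Perm (Fin 4)) (c : Fin 4), τ c = c → τ ^ 3 ≠ 1 → u c = c → u ^ 3 = 1 →
    (u⁻¹ * τ) ^ 3 ≠ 1 ∧ τ * u * τ⁻¹ * u = 1 ∧
      (u ≠ 1 → ∀ l, τ l = l ∨ τ (u l) = u l ∨ τ (u (u l)) = u (u l)) := by decide +kernel

theorem q6 : ∀ (γ : Perm (Fin 4)) (a : Fin 4), γ ^ 3 = 1 → γ a = a ∨
    ∃ e : Perm (Fin 4), e 0 = a ∧ e 1 = γ a ∧ e 2 = γ (γ a) := by decide +kernel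

theorem q7 (n : ℕ) (h : n ∣ 2) : ∀ γ : Perm (Fin n), γ * γ = 1 ∧ ∀ a, γ a = a → γ = 1 := by
  rcases (Nat.dvd_prime Nat.prime_two).1 h with rfl | rfl <;> decide

variable {G X A : Type} [Group G] [Finite G] [MulAction G X] [IsPretransitive G X]

theorem gad (M : Subgroup G) (hM : M.Normal) (y : X) {n : ℕ} (h : (DD M hM y).index = n) :
    ∃ (π : X → Fin n) (ρ : G →* Perm (Fin n)), (∀ g z, π (g • z) = ρ g (π z)) ∧
      Function.Surjective π ∧ ∀ z z', π z = π z' ↔ ∃ m ∈ M, z = m • z' := by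
  let E := Finite.equivFinOfCardEq h
  choose σ hσ using exists_smul_eq G y
  have key : ∀ a b : G, (a : G ⧸ DD M hM y) = b ↔ ∃ m ∈ M, a • y = m • b • y := fun a b => by
    rw [eq_comm, QuotientGroup.eq]
    exact ⟨fun ⟨m, hm, e⟩ => ⟨_, hM.conj_mem m hm b, by
      rw [mul_smul, mul_smul, inv_smul_smul, ← e, mul_smul, smul_inv_smul]⟩,
      fun ⟨m, hm, e⟩ => ⟨_, hM.conj_mem' m hm b, by simp only [mul_smul, e]⟩⟩
  refine ⟨fun z => E (σ z), (E.permCongrHom : _ →* _).comp (toPermHom G (G ⧸ DD M hM y)),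
    fun g z => ?_, fun l => ?_, fun z z' => by rw [E.apply_eq_iff_eq, key, hσ, hσ]⟩
  · show _ = E (g • E.symm (E _))
    rw [E.symm_apply_apply]
    exact congrArg E ((key _ (g * σ z)).2 ⟨1, one_mem _, by simp [hσ, mul_smul]⟩)
  · obtain ⟨g, hg⟩ := QuotientGroup.mk_surjective (E.symm l)
    exact ⟨g • y, (congrArg E (((key _ g).2 ⟨1, one_mem _, by simp [hσ]⟩).trans hg)).trans
      (E.apply_symm_apply l)⟩

variable [Group.IsSolvable G] [AddCommGroup A] [DistribMulAction G A]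

theorem top4 [FaithfulSMul G X] (f : Dat G X A) {j m k p a : ℕ} (hf : f.N2 = 2 ^ j) (hI : ¬2 ∣ f.W.index)
    (hA : ∀ v : A, 2 ^ j • v = 0) (hX : Nat.card X = m * 4) (hm : ¬2 ∣ m) {g : G} {x y : X}
    (hg : f.c g = f.b x) (hk : g ^ k • y = y) (k2 : ¬2 ∣ k) (hp : p.Prime) (p2 : p ≠ 2)
    {U : Subgroup G} (hU : ∀ u ∈ U, u ^ p ^ a = 1) (H : G → Prop) (H1 : H 1)
    (hH : ∀ h, ∃ u ∈ U, H (u⁻¹ * h)) (M : Subgroup G) (hM : M.Normal)
    (h4 : (DD M hM y).index ∣ 4) :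
    g * g ∈ KK X M hM ∧
    (∀ z z' : X, ∃ h : G, ∃ m ∈ M, ∃ m' ∈ M, h • z = m • z' ∧ h • z' = m' • z) ∧
    (g ∉ DD M hM x →
      (∀ z : X, g ∈ DD M hM z ∨ (∃ m ∈ M, z = m • x) ∨ ∃ m ∈ M, z = m • g • x) ∧
      (U ≤ KK X M hM ∨ ∃ h ∈ DD M hM x, g ∈ DD M hM (h • g • x))) ∧
    ∃ (t : X) (s : G), H s ∧ s ∈ DD M hM t ∧ U ≤ DD M hM t ∧
      (∀ u ∈ U, s * u * s⁻¹ * u ∈ KK X M hM) ∧ ∀ z : X, ∃ u ∈ U, s ∈ DD M hM (u • z) := by
  have c2 : ∀ i, (2 ^ i).Coprime (p ^ a) := fun i => Nat.coprime_pow_primes i a Nat.prime_two hp p2.symm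
  have ez : U ≤ KK X M hM → ∃ (t : X) (s : G), H s ∧ s ∈ DD M hM t ∧ U ≤ DD M hM t ∧
      (∀ u ∈ U, s * u * s⁻¹ * u ∈ KK X M hM) ∧ ∀ z : X, ∃ u ∈ U, s ∈ DD M hM (u • z) := fun l =>
    ⟨y, 1, H1, one_mem _, l.trans (iInf_le _ _), fun u hu => by
      simpa using mul_mem (l hu) (l hu), fun z => ⟨1, one_mem _, one_mem _⟩⟩
  obtain ⟨n, hn⟩ : ∃ n, (DD M hM y).index = n := ⟨_, rfl⟩
  obtain ⟨π, ρ, π1, π2, π3⟩ := gad M hM y hn
  have mD : ∀ h z, h ∈ DD M hM z ↔ ρ h (π z) = π z := fun h z => by rw [← π1, π3]; rfl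
  have mK : ∀ h, h ∈ KK X M hM ↔ ρ h = 1 := fun h => mem_KK.trans
    ⟨fun k => Equiv.ext fun l => by
      obtain ⟨z, rfl⟩ := π2 l
      exact (mD h z).1 (k z), fun k z => (mD h z).2 (by rw [k]; rfl)⟩
  have sw : ∀ z z' h, ρ h (π z) = π z' ∧ ρ h (π z') = π z →
      ∃ h : G, ∃ m ∈ M, ∃ m' ∈ M, h • z = m • z' ∧ h • z' = m' • z := fun z z' h e => by
    obtain ⟨m, hm, e1⟩ := (π3 _ _).1 ((π1 h z).trans e.1)
    obtain ⟨m', hm', e2⟩ := (π3 _ _).1 ((π1 h z').trans e.2)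
    exact ⟨h, m, hm, m', hm', e1, e2⟩
  have fy : ∀ i, ρ g ^ 2 ^ i = 1 → ρ g (π y) = π y := fun i h => (mD _ _).1 (cop _
    ((Nat.prime_two.coprime_iff_not_dvd.2 k2).pow_left i)
    ((mD _ _).2 (by rw [map_pow, h]; rfl)) (st_le M hM y hk))
  rw [hn] at h4
  by_cases n2 : n ∣ 2
  · have q := q7 n n2
    have g1 := (q _).2 _ (fy 1 (by rw [pow_one, sq, (q _).1]))
    refine ⟨(mK _).2 (by rw [map_mul, (q _).1]), fun z z' => ?_,
      fun h => (h ((mD _ _).2 (by rw [g1]; rfl))).elim, ez fun u hu => cop _ (c2 1)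
        ((mK _).2 (by rw [pow_one, sq, map_mul, (q _).1])) (hU u hu ▸ one_mem _)⟩
    obtain ⟨h, rfl⟩ := exists_smul_eq G z z'
    exact sw _ _ h ⟨(π1 _ _).symm, by rw [π1, ← Perm.mul_apply, (q _).1]; rfl⟩
  obtain rfl : n = 4 := by
    have := Nat.le_of_dvd four_pos h4
    interval_cases n <;> simp_all
  have g3 : ρ g ^ 3 ≠ 1 := fun h3 => by
    have hL := KK_normal (X := X) M hM
    obtain ⟨B, J⟩ := up (d := f) hL (fun g hg => mem_KK.2 fun t => (W.DD_KK hM t).le (hg t))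
      (fun t => by
        have := Subgroup.relIndex_mul_index (st_le M hM t)
        rw [index_stabilizer_of_transitive, hX, uni hM y, hn, Nat.mul_left_inj four_ne_zero] at this
        rw [W.DD_KK, this, hf]
        exact (Nat.prime_two.coprime_iff_not_dvd.2 hm).pow_left j) ⊥ ⊥
      (lay_bot f) bot_le
    let _ := Z.quoAct B J.sta
    choose σ hσ using π2
    let β : Fin 4 → A ⧸ B := fun l => f.b (σ l)
    have b1 : ∀ z, β (π z) = f.b z := fun z => by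
      obtain ⟨m, hm, e⟩ := (π3 _ _).1 (hσ (π z))
      exact QuotientAddGroup.eq_iff_sub_mem.2 (by
        rw [e, f.hb]; exact J.tri m (W.le_KK hM hm) _)
    have b2 : ∀ h l, β (ρ h l) = h • β l := fun h l => by
      rw [← hσ l, ← π1, b1, b1, f.hb]; rfl
    have b3 : β (π x) + β (ρ g (π x)) + β (ρ g (ρ g (π x))) = 0 := by
      have := cK J ((mK (g * (g * g))).2 (by rw [← h3, pow_three, map_mul, map_mul]))
      rw [f.hc, f.hc, hg, smul_add, ← add_assoc] at this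
      rw [b2, b2, b2, b1]
      exact (QuotientAddGroup.eq_zero_iff _).2 this
    have b4 : g • β (π x) = β (π x) → False := fun e => by
      rw [b2 g (ρ g _), b2, e, e, b1] at b3
      have := Z.acop B (Nat.Coprime.pow_right j (by decide : Nat.Coprime 3 2)) (v := f.b x)
        ((QuotientAddGroup.eq_zero_iff _).1 (by rw [three'_nsmul]; exact b3))
        (hA _ ▸ zero_mem _)
      refine hI (Dvd.dvd.trans (by rw [hn]; decide) (Subgroup.index_dvd_of_le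
        (show f.W ≤ DD M hM y from fun w hw => iInf_le (DD M hM) y ((J.iff w hw).1 ?_))))
      rw [W.btop f J.sta this]; trivial
    rcases q6 _ (π x) h3 with e | ⟨e, e0, e1, e2⟩
    · exact b4 (by rw [← b2, e])
    have b5 : ∑ l, β l = β (e 3) := by
      rw [← Equiv.sum_comp e, Fin.sum_univ_four, e0, e1, e2, b3, zero_add]
    have b6 : ∀ h : G, h • β (e 3) = β (e 3) := fun h => by
      rw [← b5, Finset.smul_sum, ← Equiv.sum_comp (ρ h) β]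
      simp only [b2]
    obtain ⟨h, rfl⟩ := exists_smul_eq G (σ (e 3)) x
    exact b4 (by rw [π1, hσ, b2, b6, b6])
  have g4 := fy 2 ((q1 _).resolve_left g3)
  have u3 : ∀ u ∈ U, ρ u ^ 3 = 1 := fun u hu => (q1 _).elim id fun h => by
    rw [(mK u).1 (cop _ (c2 2) ((mK _).2 (by rw [map_pow]; exact h)) (hU u hu ▸ one_mem _)), one_pow]
  obtain ⟨a1, ⟨d, a2⟩, a3⟩ := q2 _ _ g4 g3
  refine ⟨(mK _).2 (by rw [map_mul, a1]), fun z z' => ?_, fun h => ⟨fun z => ?_, ?_⟩, ?_⟩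
  · obtain ⟨w, rfl⟩ := π2 d
    obtain ⟨s, rfl⟩ := exists_smul_eq G w z
    obtain ⟨h, rfl⟩ := exists_smul_eq G (s • w) z'
    have := q3 (ρ (s * g * s⁻¹)) (ρ h) (π (s • y)) (π (s • w)) (by simp [π1, g4])
      (by rw [← map_pow, conj_pow, map_mul, map_mul, map_pow, map_inv]; simpa using g3)
      (by simpa [π1] using a2)
    generalize s * g * s⁻¹ = γ at this
    generalize s • w = z at *
    rw [← π1 h] at this
    rcases this with e | e | e | e | e | e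
    · exact sw _ _ 1 (by simp [e])
    · exact sw _ _ γ e
    · exact sw _ _ (h * γ * h⁻¹) (by simpa using e)
    · exact sw _ _ (γ * (h * γ * h⁻¹) * γ) (by simpa using e)
    · exact sw _ _ h ⟨(π1 _ _).symm, e⟩
    · exact sw _ _ (γ * h) (by simpa using e)
  · simpa only [mD, ← π3, π1] using a3 _ (mt (mD _ _).2 h) (π z)
  · refine (em _).imp_right fun l => ?_
    obtain ⟨u, hu, u0⟩ := SetLike.not_le_iff_exists.1 l
    obtain ⟨i, e⟩ := q4 _ _ _ _ g4 g3 (mt (mD _ _).2 h) (u3 u hu) (mt (mK u).2 u0)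
    refine ⟨![u, g * u * g, g * u, g * u * u] i, ?_⟩
    simp only [mD, π1]
    fin_cases i <;> simpa using e
  refine (em _).elim ez fun l => ?_
  obtain ⟨u, hu, u0⟩ := SetLike.not_le_iff_exists.1 l
  obtain ⟨t, ht⟩ := W.fixc (D := DD M hM y) (Δ := ⊤) (U := U) hp
    (fun u => ⟨a, Subtype.ext (hU u u.2)⟩) le_top (by
      rw [Subgroup.relIndex_top_right, hn]
      exact fun h => p2 ((Nat.prime_dvd_prime_iff_eq hp Nat.prime_two).1
        (hp.dvd_of_dvd_pow (n := 2) h)))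
  have UD : U ≤ DD M hM (t • y) := fun u hu => Z.DD_back hM (ht u hu)
  obtain ⟨v, hv, v1⟩ := hH (t * g * t⁻¹)
  have s1 := DD_conj hM t ((mD _ _).2 g4)
  have s2 := (q5 _ _ _ ((mD _ _).1 s1) (by
    rw [← map_pow, conj_pow, map_mul, map_mul, map_pow, map_inv]; simpa using g3)
    ((mD _ _).1 (UD hv)) (u3 v hv)).1
  have s3 := mul_mem (inv_mem (UD hv)) s1
  rw [← map_inv, ← map_mul] at s2
  have s4 := fun u hu => (q5 _ _ _ ((mD _ _).1 s3) s2 ((mD _ _).1 (UD hu)) (u3 u hu)).2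
  refine ⟨t • y, _, v1, s3, UD, fun u hu => (mK _).2 (by simpa using (s4 u hu).1), fun z => ?_⟩
  rcases (s4 u hu).2 (mt (mK u).2 u0) (π z) with e | e | e
  · exact ⟨1, one_mem _, (mD _ _).2 (by simpa using e)⟩
  · exact ⟨u, hu, (mD _ _).2 (by simpa [π1] using e)⟩
  · exact ⟨u * u, mul_mem hu hu, (mD _ _).2 (by simpa [π1] using e)⟩

end Pool.Agent.P.MP_6d14ae_al.F
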