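import Pool.Agent.P.MP_6d14ae_al.W.Ae

/-! A faithful quotient over at most four blocks of prime size. -/

set_option autoImplicit false

namespace Pool.Agent.P.MP_6d14ae_al.F

open MulAction T V
open S hiding Dat Lay c_one c_div facN ext_b triK next chi chi_one

variable {G X C : Type} [Group G] [Finite G] [Group.IsSolvable G] [MulAction G X]
  [IsPretransitive G X] [AddCommGroup C] [DistribMulAction G C]

theorem two4 (e : Dat G X C) {p a : ℕ} (hp : p.Prime) (p2 : p ≠ 2) (he : e.N2 = p ^ a)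
    (hpN : e.N1.Coprime p) (hC : ∀ v : C, p ^ a • v = 0) {Y : AddSubgroup C} {Δ : Subgroup G}
    (hY : ∀ (g : G) v, v ∈ Y → g • v ∈ Y) (Y0 : Y ≠ ⊤) (hΔ : ∀ g, g ∈ Δ ↔ ∀ v, g • v - v ∈ Y)
    (hn : Δ.Normal) (h : ∀ u ∈ e.W, u ∈ Δ → e.c u ∈ Y) (y : X) (hz : (DD Δ hn y).index ∣ p * 4)
    (SS : ∀ (M : Subgroup G) (hM : M.Normal), (DD M hM y).index ∣ 4 → ∃ (t : X) (s : G),
      e.c s = 0 ∧ s ∈ DD M hM t ∧ e.W ≤ DD M hM t ∧ (∀ u ∈ e.W, s * u * s⁻¹ * u ∈ KK X M hM) ∧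
      ∀ z : X, ∃ u ∈ e.W, s ∈ DD M hM (u • z)) : False := by
  have clo : ∀ g : G, (∀ y : X, ∃ k ∈ Δ, g • y = k • y) → g ∈ Δ := fun g hg =>
    (hΔ g).2 (Ltri e hn (fun n k => (hΔ n).1 k) g (mem_KK.2 hg))
  have cΔ : ∀ δ ∈ Δ, e.c δ ∈ Y := fun δ hδ => by
    obtain ⟨u, hu, e1⟩ := e.hs (e.c δ)
    exact e1 ▸ h u hu (facN e Δ hn hδ hu e1)
  have c2 : (2 : ℕ).Coprime (p ^ a) :=
    ((Nat.coprime_primes Nat.prime_two hp).2 p2.symm).pow_right a
  have dv : ∀ (D : AddSubgroup C) v, v + v ∈ D → v ∈ D := fun D v k =>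
    cop (G := Multiplicative C) D.toSubgroup (g := Multiplicative.ofAdd v) c2
      (show 2 • v ∈ D by rwa [two_smul]) (show p ^ a • v ∈ D from hC v ▸ zero_mem _)
  have k0 := fin8 e hp he hpN hY Y0 hΔ h hn le_rfl y
  obtain ⟨q, hq, M, hM, h1, -, g1, g2, -⟩ := elem2 Δ ⊤ (lt_top_iff_ne_top.2 fun k => by
    rw [Subgroup.index_eq_one.2 (eq_top_iff.2 (k.ge.trans (le_DD Δ hn y)))] at k0
    exact hp.one_lt.ne' (Nat.dvd_one.1 k0))
  have nt : ¬∀ n ∈ M, ∀ v, n • v - v ∈ Y := fun k => h1.not_ge fun m hm => (hΔ m).2 (k m hm)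
  by_cases hpq : q = p
  swap
  · have h5 : ∀ m ∈ M, e.c m ∈ Y := fun m hm => by
      obtain ⟨u, hu, e1⟩ := e.hs (e.c m)
      exact e1 ▸ h u hu (cop Δ (((Nat.coprime_primes hq hp).2 hpq).pow_right a)
        (g2 u (facN e M hM hm hu e1)) (he ▸ e.hW u hu ▸ Δ.one_mem))
    refine nt fun m hm v => ?_
    obtain ⟨w, -, rfl⟩ := e.hs v
    have h3 := Y.sub_mem (hY w _ (h5 _ (hM.conj_mem' m hm w))) (h5 m hm)
    rw [mul_assoc, c_div, smul_inv_smul, e.hc] at h3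
    convert h3 using 1
    abel
  subst hpq
  obtain ⟨i, hi⟩ := lay hn hM clo h1 hq g1 g2 y
  rw [← fac2 hn hM h1.le y, hi, pow_succ', mul_assoc, Nat.mul_dvd_mul_iff_left hq.pos] at hz
  rcases i with _ | i
  swap
  · exact p2 ((Nat.prime_dvd_prime_iff_eq hq Nat.prime_two).1 (hq.dvd_of_dvd_pow (n := 2)
      (((dvd_pow_self q i.succ_ne_zero).mul_right _).trans hz)))
  rw [pow_zero, one_mul] at hz
  obtain ⟨t, s, s0, s1, s2, s3, s4⟩ := SS M hM hz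
  have i0 := fun z => (uni2 hn hM h1.le y z).trans (hi.trans (pow_one q))
  have hL := KK_normal (X := X) M hM
  let T : Subgroup G :=
    { carrier := {l | l ∈ KK X M hM ∧ ∀ n ∈ M, Commute (n : G ⧸ Δ) l}
      one_mem' := ⟨one_mem _, fun n _ => Commute.one_right _⟩
      mul_mem' := fun ha hb => ⟨mul_mem ha.1 hb.1, fun n hn => (ha.2 n hn).mul_right (hb.2 n hn)⟩
      inv_mem' := fun ha => ⟨inv_mem ha.1, fun n hn => (ha.2 n hn).inv_right⟩ }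
  have hT : T.Normal := ⟨fun l hl g => ⟨hL.conj_mem l hl.1 g, fun n hn => by
    simpa [mul_assoc] using (hl.2 _ (hM.conj_mem' n hn g)).conj (g : G ⧸ Δ)⟩⟩
  have t0 := fun l (hl : l ∈ T) => trl hn hM clo g1 g2 hl.1 fun n hn => (cz Δ _ _).2 (hl.2 n hn)
  have t1 : M ≤ T := fun n hn => ⟨mem_KK.2 fun y => ⟨n, hn, rfl⟩, fun m hm =>
    (cz Δ _ _).1 (by simpa using g1 _ (inv_mem hm) n hn)⟩
  have t2 : ∀ u ∈ e.W, u ∈ KK X M hM → u ∈ T := fun u hu k => ⟨k, fun n hm => (cz Δ _ _).1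
    (clo _ fun y => pr2 (U := e.W ⊓ KK X M hM) hp (i0 y) ((isP e he).to_le inf_le_left)
      (fun a ha b hb => le_DD Δ hn y (g1 a ha b hb)) (fun u _ n hn => hM.conj_mem n hn u)
      (fun u hu => norL hn hM g1 y hu.2) u ⟨hu, k⟩ n hm)⟩
  obtain ⟨D, hD, BD, nD, v, v0, hv, mx⟩ := mxl (N := M) e hp he hC hY nt
  let Z := fv D (T : Set G)
  have hZ : ∀ (g : G) v, v ∈ Z → g • v ∈ Z := fv_sta hD fun t ht g => hT.conj_mem' t ht g
  have DZ : D ≤ Z := le_fv hD _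
  have tri : ∀ k ∈ Δ, ∀ v, k • v - v ∈ D := fun k hk v => BD ((hΔ k).1 hk v)
  have vY : v ∈ Z := mem_fv.2 fun n hn => by
    obtain ⟨u, hu, -, -, e3⟩ := fp e hpN (fun a ha => (t0 a ha).1) hn hT
    simpa [smul_sub, mul_smul] using D.add_mem (hD u _ (tri _ e3 v)) (hv u hu)
  have LY := Ltri e hM (mx Z hZ DZ vY)
  have bt : ∀ z, ∀ g ∈ DD M hM z, g • e.b z - e.b z ∈ Z := fun z g ⟨m, hm, e1⟩ => by
    rw [← e.hb, e1, e.hb]
    exact LY m (t1 hm).1 _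
  have rr : ∀ y : X, ∀ n ∈ M, n • e.b y - e.b y ∈ D → n ∈ DD Δ hn y := fun y n hm h => by
    refine (pr1 (F := M ⊓ fx D hD (e.b y)) hp (i0 y) (fun m ⟨⟨k, hk, e2⟩, hm⟩ => ⟨hm, ?_⟩)
      inf_le_left).resolve_right (fun k => nD (all_b (d := e) hD hM y fun m hm => (k hm).2)) ⟨hm, h⟩
    show m • e.b y - e.b y ∈ D
    rw [← e.hb, e2, e.hb]
    exact tri k hk _
  have rad : ∀ l ∈ T, (∀ v, l • v - v ∈ D) → l ∈ Δ := fun l hl h => clo l fun y => by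
    obtain ⟨n, hn, e1⟩ := mem_KK.1 hl.1 y
    exact e1 ▸ rr y n hn (by rw [← e.hb, ← e1, e.hb]; exact h _)
  have cj : ∀ l ∈ T, ∀ g, e.c (g * l * g⁻¹) - g • e.c l ∈ Z := fun l hl g => by
    have h2 := e.hc (g * l * g⁻¹) g
    rw [inv_mul_cancel_right, e.hc] at h2
    convert Z.neg_mem (LY _ (hL.conj_mem l hl.1 g) (e.c g)) using 1
    rw [eq_sub_of_add_eq h2.symm]; abel
  have cov : ∀ v, ∃ l ∈ T, v - e.c l ∈ Z := by
    let E : AddSubgroup C :=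
      { carrier := {v | ∃ l ∈ T, v - e.c l ∈ Z}
        zero_mem' := ⟨1, one_mem _, by simp [c_one]⟩
        add_mem' := by
          rintro v v' ⟨k, hk, a1⟩ ⟨k', hk', a2⟩
          refine ⟨k * k', mul_mem hk hk', ?_⟩
          convert Z.sub_mem (Z.add_mem a1 a2) (LY k hk.1 (e.c k')) using 1
          rw [e.hc]; abel
        neg_mem' := by
          rintro v ⟨k, hk, a1⟩
          refine ⟨k⁻¹ * 1, mul_mem (inv_mem hk) (one_mem _), ?_⟩
          convert Z.sub_mem (LY _ (inv_mem hk.1) (e.c k)) a1 using 1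
          rw [c_div, c_one, zero_sub, smul_neg]; abel }
    have hE : ∀ (g : G) v, v ∈ E → g • v ∈ E := fun g v ⟨k, hk, a1⟩ => ⟨_, hT.conj_mem k hk g, by
      convert Z.sub_mem (hZ g _ a1) (cj k hk g) using 1
      rw [smul_sub]; abel⟩
    obtain ⟨u, hu, e1⟩ := e.hs (e.b t)
    obtain ⟨u', hu', e2⟩ := e.hs (e.c (s * u * s⁻¹ * u))
    have := W.btop e hE (x := t) (dv E _ ⟨u', t2 u' hu' (facN e _ hL (s3 u hu) hu' e2), by
      convert neg_mem (add_mem (bt t s s1)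
        (bt t _ (mul_mem (mul_mem s1 (s2 hu)) (inv_mem s1)))) using 1
      rw [e2, e.hc, W.cw e s0, e1]; abel⟩)
    exact fun v => (this ▸ trivial : v ∈ E)
  let Q : G → C → C ⧸ D := fun l v => (l • v - v : C)
  have qe : ∀ x y : C, x - y ∈ D → (x : C ⧸ D) = y := fun x y h => QuotientAddGroup.eq_iff_sub_mem.2 h
  have Q1 : ∀ l ∈ T, ∀ x y, x - y ∈ Z → Q l x = Q l y := fun l hl x y h => qe _ _ (by
    convert mem_fv.1 h l hl using 1
    rw [smul_sub]; abel)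
  have Q2 : ∀ l ∈ T, ∀ l' ∈ T, Q l (e.c l') = Q l' (e.c l) := fun l hl l' hl' => qe _ _ (by
    have k1 := (t0 l hl).2 l' hl'.1 fun n hn => (cz Δ _ _).2 (hl'.2 n hn)
    have k2 : e.c (l * l') = e.c (l * l' * l⁻¹ * l'⁻¹ * (l' * l)) := by congr 1; group
    rw [e.hc l l', e.hc _ (l' * l)] at k2
    convert D.add_mem (BD (cΔ _ k1)) (tri _ k1 (e.c (l' * l))) using 1
    rw [← add_sub_assoc, ← k2, e.hc]; abel)
  have k1 : ∀ l ∈ T, e.c l ∈ Z → l ∈ Δ := fun l hl h => rad l hl fun v => by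
    obtain ⟨l', hl', a1⟩ := cov v
    exact (QuotientAddGroup.eq_zero_iff _).1 (((Q1 l hl _ _ a1).trans (Q2 l hl l' hl')).trans
      ((QuotientAddGroup.eq_zero_iff _).2 (mem_fv.1 h l' hl')))
  have k3 : ∀ ζ ∈ Z, s • ζ - ζ ∈ D → ζ ∈ D := fun ζ hζ a1 => by
    obtain ⟨u, hu, rfl⟩ := e.hs ζ
    obtain ⟨u', hu', e2⟩ := e.hs (e.c (s * u * s⁻¹ * u))
    have a2 := k1 u' (t2 u' hu' (facN e _ hL (s3 u hu) hu' e2))
    rw [e.hc, W.cw e s0] at e2
    have a3 := sub_mem (e2 ▸ BD (cΔ _ (a2 (e2 ▸ add_mem (hZ _ _ hζ) (hZ _ _ hζ))))) a1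
    have a4 : s * u * s⁻¹ ∈ fx D hD (e.c u) := cop _ c2 (by
      show (s * u * s⁻¹) ^ 2 • e.c u - e.c u ∈ D
      convert sub_mem (hD (s * u * s⁻¹) _ a3) a3 using 1
      rw [sq, mul_smul (s * u * s⁻¹)]
      simp only [smul_sub, smul_add]; abel) (by
      rw [conj_pow, ← he, e.hW u hu, mul_one, mul_inv_cancel]; exact one_mem _)
    refine dv D _ ?_
    convert sub_mem a3 a4 using 1
    abel
  obtain ⟨o, ho, a1⟩ := cov (e.b t)
  have fo : ∀ g ∈ DD M hM t, ∀ w, (g * o * g⁻¹) • w - o • w ∈ D := fun g hg w => by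
    have := hD o _ (tri _ (k1 (o⁻¹ * (g * o * g⁻¹)) (mul_mem (inv_mem ho) (hT.conj_mem o ho g)) (by
      rw [c_div]
      refine hZ _ _ ?_
      convert add_mem (add_mem (sub_mem (cj o ho g) (hZ g _ a1)) (bt t g hg)) a1 using 1
      rw [smul_sub]; abel)) w)
    rwa [smul_sub, mul_smul, smul_inv_smul] at this
  have a2 := rad o ho (ext_b e D o fun z => by
    obtain ⟨u, hu, a2⟩ := s4 z
    have a3 := k3 _ (LY o ho.1 (e.b (u • z))) (by
      convert add_mem (fo s s1 (s • e.b (u • z))) (mem_fv.1 (bt _ s a2) o ho) using 1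
      simp only [smul_sub, mul_smul, inv_smul_smul]; abel)
    convert sub_mem (hD u⁻¹ _ a3) (fo u⁻¹ (inv_mem (s2 hu)) (e.b z)) using 1
    simp only [smul_sub, mul_smul, inv_smul_smul, inv_inv, e.hb]; abel)
  have a3 := W.btop e hZ (x := t) (by simpa using add_mem a1 (DZ (BD (cΔ o a2))))
  exact nD fun n hn v => mem_fv.1 (show v ∈ Z from a3 ▸ trivial) n (t1 hn)

end Pool.Agent.P.MP_6d14ae_al.F
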