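import Pool.Agent.P.MP_6d14ae_al.F.Cas
import Pool.Agent.P.MP_6d14ae_al.F.Fre
import Pool.Agent.P.MP_6d14ae_al.F.Two
import Pool.Agent.P.MP_6d14ae_al.F.Tq

/-! Degrees with the least prime power allowed and cofactor four. -/

set_option autoImplicit false

namespace Pool.Agent.P.MP_6d14ae_al.F

open MulAction J T V
open S hiding Dat Lay c_one c_div facN ext_b triK next chi chi_one

variable {G X E : Type} [Group G] [Finite G] [MulAction G X] [AddCommGroup E]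
  [DistribMulAction G E] (κ : G ≃ E)
  (hκ : ∀ g h, κ (g * h) = κ g + g • κ h) (a : X → E) (ha : ∀ (g : G) x, a (g • x) = g • a x)
  (hg : AddSubgroup.closure (Set.range a) = ⊤)

include hκ ha hg

theorem nec4 [FaithfulSMul G X] [IsPretransitive G X] {q r s : ℕ} (hq : q.Prime) (hr : r.Prime)
    (q2 : q ≠ 2) (r3 : r ≠ 3) (hX : Nat.card X = q ^ (s + 1) * 4) (h2 : ¬r ∣ Nat.card X)
    (ord : ∀ i, r ∣ q ^ i - 1 → s ∣ i) (s2 : 2 ≤ s) {x z : X} {g : G} {k : ℕ} (c1 : κ g = a x)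
    (c2 : g ^ k • z = z) (c3 : k.Coprime (Nat.card X)) (c4 : ∀ j : ℕ, g ^ j • z = z → r ∣ j) :
    False := by
  have := solv κ hκ
  have : Nonempty X := ⟨x⟩
  have h1 : r ∣ Nat.card G := c4 _ (by rw [pow_card_eq_one', one_smul])
  have sp : ∀ q : ℕ, q.Prime → ∃ j N, Nat.card G = N * q ^ j ∧ N.Coprime q := fun q hq => by
    obtain ⟨j, N, k1, k2⟩ :=
      Nat.exists_eq_pow_mul_and_not_dvd (Nat.card_pos (α := G)).ne' q hq.one_lt.ne'
    exact ⟨j, N, k2.trans (mul_comm _ _), (hq.coprime_iff_not_dvd.2 k1).symm⟩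
  have q4 : ¬q ∣ 4 := fun h =>
    q2 ((Nat.prime_dvd_prime_iff_eq hq Nat.prime_two).1 (hq.dvd_of_dvd_pow (n := 2) h))
  have r2 : r ≠ 2 := fun e => h2 (hX ▸ e ▸ Dvd.dvd.mul_left (by decide) _)
  have r4 : 4 < r := by
    have := hr.two_le
    have : r ≠ 4 := fun e => absurd (e ▸ hr) (by decide)
    omega
  have sm : ∀ l : ℕ, l.Prime → l ≠ q → ∀ j, 0 < j → l ^ j ∣ Nat.card X → ¬r ∣ l ^ j - 1 :=
    fun l hl hlq j hj t1 t2 => by
      have t3 := Nat.le_of_dvd four_pos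
        ((Nat.coprime_pow_primes j (s + 1) hl hq hlq).dvd_of_dvd_mul_left (hX ▸ t1))
      have t4 := Nat.one_lt_pow hj.ne' hl.one_lt
      have := Nat.le_of_dvd (by omega) t2
      omega
  have nk : ∀ l, l.Prime → l ∣ Nat.card X → ¬l ∣ k := fun l h e e' =>
    h.one_lt.ne' (Nat.eq_one_of_dvd_coprimes c3 e' e)
  have ix : ∀ {l j L : ℕ} (hl : l.Prime) (hL : Nat.card G = L * l ^ j) (cL : L.Coprime l),
      ¬l ∣ (sub κ hκ (l ^ j)).index := fun {l j L} hl hL cL => by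
    have k := (sub κ hκ (l ^ j)).index_mul_card
    rw [(card_sub κ hκ (cL.pow_right j).symm (hL.trans (mul_comm _ _))).1, hL,
      Nat.mul_left_inj (pow_ne_zero j hl.ne_zero)] at k
    exact k ▸ hl.coprime_iff_not_dvd.1 cL.symm
  obtain ⟨b, M, hM, cM⟩ := sp r hr
  let _ := S.tact (G := G) (E := E) (r ^ b)
  obtain ⟨d, d1, d2, d3, d4, d5⟩ := mkd2 κ hκ a ha hg hM (cM.pow_right b)
  have wo : ∀ w ∈ d.W, w ^ r ^ b = 1 := fun w hw => d2 ▸ d.hW w hw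
  have zc : ∀ {l j L : ℕ}, l.Prime → l ≠ r → Nat.card G = L * l ^ j → ∀ u ∈ d.W, κ u ∈ tor E L :=
    fun {l j L} hl hlr hL u hu => by
      obtain ⟨t, ht⟩ := (Nat.coprime_pow_primes b j hr hl hlr.symm).dvd_of_dvd_mul_right
        (hL ▸ hM ▸ dvd_mul_left _ _)
      rw [d3] at hu
      rw [mem_tor, ht, mul_nsmul, show r ^ b • κ u = 0 from hu, smul_zero]
  obtain ⟨K, N, B, p, hN, I, hp, pn, k1, k2, k3, k4, k5, k6, k7⟩ := find (d := d)
    (by rw [d2]; exact (hr.coprime_iff_not_dvd.2 h2).pow_left b) ⊥ ⊥ (lay_bot d) fun h => by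
      have := (card_sub κ hκ (cM.pow_right b).symm (hM.trans (mul_comm _ _))).1
      rw [← d3, le_bot_iff.1 h, Subgroup.card_bot] at this
      rw [hM, ← this, mul_one] at h1
      exact hr.one_lt.ne' (Nat.eq_one_of_dvd_coprimes cM h1 dvd_rfl)
  have hrp : r ≠ p := fun e => h2 (e ▸ pn)
  obtain rfl : p = q := by
    by_contra h
    obtain ⟨j, j0, j1, j2⟩ := Z.big d hr hp hrp d2 hN I k1 k2 k3 k6 k7
    exact sm p hp h j j0 j1 j2
  obtain ⟨j, L, hL, cL⟩ := sp p hp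
  let _ := S.tact (G := G) (E := E) (p ^ j)
  obtain ⟨e, e1, e2, e3, e4, e5⟩ := mkd2 κ hκ a ha hg hL (cL.pow_right j)
  have hZ : ∀ u ∈ e.W, d.c u = 0 := fun u hu => d4 u (by
    obtain ⟨t, ht⟩ := (Nat.coprime_pow_primes j b hp hr hrp.symm).dvd_of_dvd_mul_right
      (hM ▸ hL ▸ dvd_mul_left _ _)
    rw [e3] at hu
    rw [mem_tor, ht, mul_nsmul, show p ^ j • κ u = 0 from hu, smul_zero])
  have hZ' : ∀ u ∈ d.W, e.c u = 0 := fun u hu => e4 u (zc hp hrp.symm hL u hu)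
  have hC : ∀ v : tor E (p ^ j), p ^ j • v = 0 := fun v => Subtype.ext v.2
  have hG : ∀ g : G, (g ^ e.N1) ^ p ^ j = 1 := fun g => by
    rw [← pow_mul, e1, ← hL, pow_card_eq_one']
  have hG' : ∀ g : G, (g ^ d.N1) ^ r ^ b = 1 := fun g => by
    rw [← pow_mul, d1, ← hM, pow_card_eq_one']
  rw [← e1] at cL
  rw [← d1] at cM
  obtain ⟨j2, L2, hL2, cL2⟩ := sp 2 Nat.prime_two
  let _ := S.tact (G := G) (E := E) (2 ^ j2)
  obtain ⟨f, -, f2, f3, -, f5⟩ := mkd2 κ hκ a ha hg hL2 (cL2.pow_right j2)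
  have k2' := nk 2 Nat.prime_two (hX ▸ Dvd.dvd.mul_left (by decide) _)
  have TOP := top4 f f2 (f3 ▸ ix Nat.prime_two hL2 cL2) (fun v => Subtype.ext v.2) hX
    (fun h => q2 ((Nat.prime_dvd_prime_iff_eq Nat.prime_two hp).1
      (Nat.prime_two.dvd_of_dvd_pow h)).symm) (f5 g x c1) c2 k2' hp q2
    (fun u hu => e2 ▸ e.hW u hu) (fun h => e.c h = 0) (c_one e) fun h =>
      let ⟨u, hu, e1⟩ := e.hs (e.c h)
      ⟨u, hu, by rw [c_div, e1, sub_self, smul_zero]⟩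
  obtain ⟨O, hO, NO, OL, O1, O2, hWO, cm⟩ := top2 d e hp e2 cM cL hN I k1 k2 k3 k4 k5 k6
    fun l hl hlp hlr M U hM hS l1 l2 l3 gn => by
      obtain ⟨j, L, hL, cL⟩ := sp l hl
      let _ := S.tact (G := G) (E := E) (l ^ j)
      obtain ⟨e, e1, e2, -, e4⟩ := mkd κ hκ a ha hg hL (cL.pow_right j)
      exact ⟨e.N1, e1 ▸ cL, Z.qa e hl hr hlr.symm e2 (fun v => Subtype.ext v.2) h2 (sm l hl hlp) wo
        (fun u hu => e4 u (zc hl hlr hL u hu)) hM hS l1 l2 l3 gn⟩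
  have hK := I.nor
  have cp : (r ^ b).Coprime p := ((Nat.coprime_primes hr hp).2 hrp).pow_left b
  by_cases h : p ∣ (DD N hN z).index
  swap
  · obtain ⟨t, ht⟩ := W.fixc (D := DD N hN z) (Δ := ⊤) hp (isP e e2) le_top
      (by rwa [Subgroup.relIndex_top_right])
    obtain ⟨w, hw, w1⟩ := d.hs (d.b (t • z))
    have WL : d.W ≤ KK X O hO := fun w hw => mem_KK.2 fun y =>
      let ⟨n, hn, e⟩ := mem_KK.1 (k6 hw) y; ⟨n, NO hn, e⟩
    refine free e hr hp hrp e2 cL hC h2 (by omega) ord (fun l => q4 ?_) wo hZ' hK I.clo hO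
      (k1.le.trans NO) O1 O2 hWO cm WL hw (fun u hu => ?_) fun l => k7 fun v hv => (I.iff v hv).1 ?_
    · have := (pow_dvd_pow p (show s + 1 + 1 ≤ 2 * s by omega)).trans (hX ▸ l)
      rwa [pow_succ, Nat.mul_dvd_mul_iff_left (pow_pos hp.pos _)] at this
    · obtain ⟨n, hn, e6⟩ := Z.DD_back hN (ht u hu)
      simpa [mul_assoc] using hO.conj_mem _ (cW d I hN hO d2 cp O1 k1.le NO k5 k6 hWO hw hw w1 u
        (by rw [e6, w1, d.hb n, ← neg_mem_iff, neg_sub]; exact k5 n (W.le_KK hN hn) _)) w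
    · rw [W.btop d I.sta (w1 ▸ (I.iff w hw).2 (inK hK hO I.clo O1 cp (WL hw) (wo w hw)
        fun y n hn => le_DD K hK y (l n hn)))]
      trivial
  have ex : ∀ w ∈ d.W, w ∉ K → ∃ y : X, ¬tv hK N y w := fun w hw h => not_forall.1
    (mt (inK hK hN I.clo k3 cp (k6 hw) (wo w hw)) h)
  obtain ⟨w, hw, w0⟩ := SetLike.not_le_iff_exists.1 k7
  obtain ⟨y, hy⟩ := ex w hw w0
  have ex1 : ∃ n ∈ N, n⁻¹ * w * n * w⁻¹ ∉ K := by
    by_contra! h
    exact hy fun n hn => le_DD K hK y (h n hn)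
  obtain ⟨i, hi⟩ := lay hK hN I.clo k1 hp k2 k3 y
  have hV := fun t => (uni2 hK hN k1.le y t).trans hi
  have fc := fun t => hX.symm.trans (fac hK hN k1.le t)
  simp only [hV, uni hN z] at fc
  obtain ⟨m, hm⟩ := h
  have hi1 : i + 1 ≤ s := by
    by_contra l
    obtain ⟨t, rfl⟩ := Nat.exists_eq_add_of_le (show s ≤ i by omega)
    exact q4 ⟨(stabilizer G y).relIndex (DD K hK y) * p ^ t * m,
      Nat.eq_of_mul_eq_mul_left (pow_pos hp.pos (s + 1)) (by rw [fc y, hm]; ring)⟩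
  have IR := fun (y : X) (ρ : G) (h : ρ ∈ KK X N hN) (h' : ρ ^ r ^ b = 1) (h'' : ¬tv hK N y ρ) =>
    irr (n := p ^ s) (DD K hK y) N hp hr hrp (fun i h0 h k => by
      have := (Nat.pow_dvd_pow_iff_le_right hp.one_lt).1 h
      have := Nat.le_of_dvd h0 (ord i k)
      omega) (hV y ▸ pow_dvd_pow p hi1) (fun a h b h' => le_DD K hK y (k2 a h b h'))
      (fun a ha => le_DD K hK y (k3 a ha)) ρ h' (norL hK hN k2 y h) h''
  obtain rfl : s = i + 1 := by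
    have := (IR y w (k6 hw) (wo w hw) hy).1
    rw [hi, ← pow_succ', Nat.pow_dvd_pow_iff_le_right hp.one_lt] at this
    omega
  have f0 : ∀ t, 4 = (stabilizer G t).relIndex (DD K hK t) * m := fun t =>
    Nat.eq_of_mul_eq_mul_left (pow_pos hp.pos (i + 1 + 1)) (by rw [fc t, hm]; ring)
  obtain ⟨B', J⟩ := up (d := e) hK I.clo (fun t => by
    rw [e2]
    exact (hp.coprime_iff_not_dvd.2 fun k => q4 (f0 t ▸ k.mul_right _)).pow_left j)
    ⊥ ⊥ (lay_bot e) bot_le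
  have ST := W.st5 e hp e2 d hZ (fun w hw u hu => by
      rw [d3] at hw ⊢
      rw [e3] at hu ⊢
      exact swap κ hκ hw hu) hN I k1.le k2 k5 k6 k7
    (fun t => hV t ▸ dvd_pow_self p i.succ_ne_zero) fun w hw h =>
      let ⟨y, hy⟩ := ex w hw h; ⟨y, (IR y w (k6 hw) (wo w hw) hy).2⟩
  obtain ⟨D, Y, Δ, hD, BD, mY, Rb, hY, Y0, hΔ, l, nor, S6⟩ :=
    mid3 e hp e2 cL hC hK hN J k1 k3 k4 ⟨w, k6 hw, ex1⟩ fun t F l1 l2 h => by
      obtain ⟨g, rfl⟩ := exists_smul_eq G y t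
      have a1 := (KK_normal (X := X) N hN).conj_mem w (k6 hw) g
      exact (IR _ _ a1 (by rw [conj_pow, wo w hw]; simp) fun h => hy (by
        simpa [mul_assoc] using tv_conj hK hN g⁻¹ h)).2 F l1 l2 (h _ a1)
  have hn : Δ.Normal := ⟨fun g hg k => (hΔ _).2 fun v => by
    simpa [smul_sub, mul_smul] using hY k _ ((hΔ g).1 hg (k⁻¹ • v))⟩
  have f := fac2 hN hn ((W.le_KK hN).trans l) z
  have hz : (DD N hN z).index ∣ p * 4 := hm ▸ mul_dvd_mul_left p (f0 z ▸ dvd_mul_left _ _)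
  by_cases h : p ∣ (DD Δ hn z).index
  · obtain ⟨s, hs⟩ := W.fixc (D := DD N hN z) hp ((isP e e2).to_le (inf_le_left (b := Δ)))
      inf_le_right
      fun k => q4 ((Nat.mul_dvd_mul_iff_left hp.pos).1 ((f ▸ mul_dvd_mul k h).trans hz))
    obtain ⟨y1, h1⟩ := ST (Δ ⊓ DD N hN (s • z)) _ (le_inf l (iInf_le _ _))
      (fun y g hg => nor y g hg.1) inf_le_right
    exact two4 e hp q2 e2 cL hC hY Y0 hΔ hn (fun u hu k => S6 u k
      (W.trp e hK hN I.clo hn (nor y1) (fun u hu k => h1 u hu ⟨k, by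
        simpa [mul_assoc] using DD_conj hN s (hs u ⟨hu, k⟩)⟩) u hu k)) z
      ((Dvd.intro_left _ f).trans hz) fun M hM h => (TOP M hM h).2.2.2
  obtain ⟨T1, T2, T3, -⟩ := TOP Δ hn ((hp.coprime_iff_not_dvd.2 h).symm.dvd_of_dvd_mul_left
    ((Dvd.intro_left _ f).trans hz))
  have clo : KK X Δ hn ≤ Δ := fun g hg => (hΔ g).2 (Ltri e hn (fun n k => (hΔ n).1 k) g hg)
  exact four d I hN hO d2 cp O1 k1.le NO k5 k6 hWO e hr hp q2 cL hC cM hG' hG hZ' OL O2 cm J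
    (fun Y => com hN J k1 k4 ⟨w, k6 hw, ex1⟩) (fun y w hw h => (IR y w (k6 hw) (wo w hw) h).2)
    hD BD mY Rb hY Y0 hΔ l hn (d5 g x c1) (e5 g x c1) c2 k2' (nk p hp pn) c4
    ((Nat.le_of_dvd four_pos (f0 z ▸ dvd_mul_right _ _)).trans_lt r4) (clo T1) T2
    fun h => ⟨(T3 h).1, (T3 h).2.imp_left fun l => l.trans clo⟩

end Pool.Agent.P.MP_6d14ae_al.F
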