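import Pool.Agent.P.MP_6d14ae_al.Z.All
import Pool.Agent.P.MP_6d14ae_al.W.Ae

/-! The top layer and the middle step, with more of their data kept. -/

set_option autoImplicit false

namespace Pool.Agent.P.MP_6d14ae_al.F

open MulAction T
open S hiding Dat Lay c_one c_div facN ext_b triK next chi chi_one

variable {G X A C : Type} [Group G] [Finite G] [MulAction G X] [AddCommGroup A]
  [DistribMulAction G A] [AddCommGroup C] [DistribMulAction G C] {K N : Subgroup G}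

section
open Z

theorem top2 (d : Dat G X A) (e : Dat G X C) {r p a : ℕ} (hp : p.Prime)
    (he : e.N2 = p ^ a) (hrN : d.N1.Coprime r)
    (hpN : e.N1.Coprime p) {B : AddSubgroup A} (hN : N.Normal) (I : Lay d K B) (hl : K < N)
    (h1 : ∀ a ∈ N, ∀ b ∈ N, a * b * a⁻¹ * b⁻¹ ∈ K) (h2 : ∀ a ∈ N, a ^ p ∈ K)
    (min : ∀ M : Subgroup G, M.Normal → K < M → M ≤ N → N ≤ M)
    (h3 : ∀ k ∈ KK X N hN, ∀ v, k • v - v ∈ B) (hW : d.W ≤ KK X N hN)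
    (QA : ∀ q, q.Prime → q ≠ p → q ≠ r → ∀ (M S : Subgroup G) (hM : M.Normal), S.Normal → M ≤ S →
      d.W ≤ S → (∀ y : X, S ≤ DD M hM y) → (∀ T, M ≤ T → (∀ g, ∀ w ∈ d.W, g⁻¹ * w * g ∈ T) → S ≤ T) →
      ∃ k, k.Coprime q ∧ ∀ s ∈ S, s ^ k ∈ M) :
    ∃ O : Subgroup G, O.Normal ∧ N ≤ O ∧ O ≤ KK X N hN ∧ (∀ a ∈ O, a ^ p ∈ K) ∧
      (∀ a ∈ O, ∀ b ∈ O, a * b * a⁻¹ * b⁻¹ ∈ K) ∧
      (∀ g, ∀ w ∈ d.W, ∃ w' ∈ d.W, ∃ o ∈ O, g * w * g⁻¹ = w' * o) ∧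
      ∀ w ∈ d.W, ∀ w' ∈ d.W, w * w' * w⁻¹ * w'⁻¹ ∈ K := by
  have hK := I.nor
  have hL := KK_normal (X := X) N hN
  have hle : N ≤ KK X N hN := fun n hn => mem_KK.2 fun y => ⟨n, hn, rfl⟩
  let O := KK X N hN ⊓ cm K N
  have hO : O.Normal := inferInstance
  have NO : N ≤ O := fun n hn => ⟨hle hn, mem_cm.2 fun m hm => (cm_iff' m n).2 (h1 m hm n hn)⟩
  have sp : ∀ g ∈ O, ∀ y : X, ∃ n ∈ N, ∃ δ ∈ O, δ ∈ DD K hK y ∧ g = n * δ := fun g hg y => by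
    obtain ⟨n, hn, e1⟩ := mem_KK.1 hg.1 y
    exact ⟨n, hn, n⁻¹ * g, mul_mem (inv_mem (NO hn)) hg, inv_mul_DD K hK e1, by simp⟩
  have tr : ∀ (y : X) (g g' : G), (g : G ⧸ K) = g' → g ∈ DD K hK y → g' ∈ DD K hK y :=
    fun y g g' h hg => by simpa using mul_mem hg (le_DD K hK y (QuotientGroup.eq.1 h))
  have O1 : ∀ g ∈ O, g ^ p ∈ K := fun g hg => I.clo _ fun y => by
    obtain ⟨n, hn, δ, h4, h5, rfl⟩ := sp g hg y
    refine tr y _ _ ?_ (pow_mem h5 p)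
    rw [QuotientGroup.mk_pow, QuotientGroup.mk_pow, QuotientGroup.mk_mul,
      (mem_cm.1 h4.2 n hn).mul_pow, ← QuotientGroup.mk_pow K n,
      (QuotientGroup.eq_one_iff _).2 (h2 n hn), one_mul]
  have O2 : ∀ g ∈ O, ∀ g' ∈ O, g * g' * g⁻¹ * g'⁻¹ ∈ K := fun g hg g' hg' => I.clo _ fun y => by
    obtain ⟨n, hn, δ, h4, h5, rfl⟩ := sp g hg y
    obtain ⟨n', hn', δ', h6, h7, rfl⟩ := sp g' hg' y
    refine tr y _ _ ?_ (mul_mem (mul_mem (mul_mem h5 h7) (inv_mem h5)) (inv_mem h7))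
    have a1 := (mem_cm.1 (hO.conj_mem _ hg' δ).2 n hn).mul_inv_cancel
    have a2 := (mem_cm.1 (mul_mem (hO.conj_mem _ h6 δ) (inv_mem h6)).2 n' hn').mul_inv_cancel
    have a3 := (mem_cm.1 h4.2 n' hn').eq
    simp only [QuotientGroup.mk_mul, QuotientGroup.mk_inv, mul_inv_rev] at a1 a2 ⊢
    rw [← a2, show ∀ n δ n' δ' : G ⧸ K, n * δ * (n' * δ') * (δ⁻¹ * n⁻¹) =
      n * (δ * (n' * δ') * δ⁻¹) * n⁻¹ from fun _ _ _ _ => by group, a1, ← mul_assoc (δ : G ⧸ K), ← a3]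
    group
  let S := O ⊔ Subgroup.normalClosure (d.W : Set G)
  have hS : S.Normal := inferInstance
  have SL : S ≤ KK X N hN := sup_le inf_le_left (Subgroup.normalClosure_le_normal hW)
  have WS : d.W ≤ S := fun w hw => Subgroup.mem_sup_right (Subgroup.subset_normalClosure hw)
  have LO : KK X N hN ≤ KK X O hO := fun g hg => mem_KK.2 fun y =>
    let ⟨n, hn, e⟩ := mem_KK.1 hg y; ⟨n, NO hn, e⟩
  let T := S ⊓ Z.cz d.hc B I.sta
  have hT : T.Normal := ⟨fun t ht g => ⟨hS.conj_mem t ht.1 g, by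
    have := B.add_mem (I.sta g _ ht.2) (I.sta g _ (h3 t (SL ht.1) (d.c g⁻¹)))
    have h4 := d.hc g g⁻¹
    rw [mul_inv_cancel, c_one] at h4
    show d.c _ ∈ B
    convert this using 1
    rw [d.hc, d.hc, mul_smul, smul_sub, eq_neg_of_add_eq_zero_left h4.symm]; abel⟩⟩
  have T0 : ∀ h ∈ T, e.c h = 0 → h ∈ O := fun h hh h0 => allq O fun q hq => by
    by_cases k : q = p
    · exact ⟨_, k ▸ hpN, e.hP h h0 ▸ O.one_mem⟩
    by_cases k' : q = r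
    · obtain ⟨w, hw, e1⟩ := d.hs (d.c h)
      have := powmod K ⊤ (fun g _ m hm => hK.conj_mem m hm g)
        ((I.iff w hw).1 (e1 ▸ hh.2)) (Subgroup.mem_top (w⁻¹ * h)) d.N1
      rw [d.hP (w⁻¹ * h) (by rw [c_div, e1, sub_self, smul_zero])] at this
      exact ⟨_, k' ▸ hrN, NO (hl.le (by simpa using this))⟩
    obtain ⟨j, h4, h5⟩ := QA q hq k k' O S hO hS le_sup_left WS
      (fun y g hg => mem_KK.1 (LO (SL hg)) y) fun Z a1 a2 => sup_le a1 ((Subgroup.closure_le _).2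
        fun x hx => by
          obtain ⟨w, hw, h⟩ := Group.mem_conjugatesOfSet_iff.1 hx
          obtain ⟨g, rfl⟩ := isConj_iff.1 h
          simpa using a2 g⁻¹ w hw)
    exact ⟨j, h4, h5 h hh.1⟩
  have TO : T ≤ O := by
    obtain ⟨F, a1, a2⟩ := cnt K N (e.W ⊓ T) hp (IsPGroup.to_le
      (show IsPGroup p e.W from fun u => ⟨a, Subtype.ext (he ▸ e.hW u u.2)⟩) inf_le_left) h1
      (fun u _ n hn => hN.conj_mem n hn u) fun u _ n _ h => hK.conj_mem n h u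
    have l1 : F ≤ N ⊓ cm K T := fun n hn => ⟨((a1 n).1 hn).1, mem_cm.2 fun t ht => by
      obtain ⟨u, hu, e1⟩ := e.hs (e.c t)
      have uT := facN e T hT ht hu e1
      have b1 := mem_cm.1 (T0 _ (mul_mem (inv_mem uT) ht)
        (by rw [c_div, e1, sub_self, smul_zero])).2 n ((a1 n).1 hn).1
      simpa using (((cm_iff n u).2 (((a1 n).1 hn).2 u ⟨hu, uT⟩)).mul_right b1).symm⟩
    have l2 := min (N ⊓ cm K T) inferInstance ⟨fun k hk => ⟨hl.le hk, mem_cm.2 fun t _ => by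
      rw [(QuotientGroup.eq_one_iff k).2 hk]; exact Commute.one_right _⟩, fun h => by
        obtain ⟨i, hi⟩ := pw K N hp h1 h2
        rw [Subgroup.relIndex_eq_one.2 (l1.trans h), hi] at a2
        rcases i with _ | i
        · exact hl.not_ge (Subgroup.relIndex_eq_one.1 hi)
        · exact hp.one_lt.ne' (Nat.dvd_one.1 ((a2.dvd_iff dvd_rfl).1
            (dvd_pow_self p i.succ_ne_zero)))⟩ inf_le_left
    exact fun t ht => ⟨SL ht.1, mem_cm.2 fun n hn => (mem_cm.1 (l2 hn).2 t ht).symm⟩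
  refine ⟨O, hO, NO, inf_le_left, O1, O2, fun g w hw => ?_, fun w hw w' hw' => ?_⟩
  · obtain ⟨w', hw', e1⟩ := d.hs (d.c (g * w * g⁻¹))
    exact ⟨w', hw', w'⁻¹ * (g * w * g⁻¹), TO ⟨mul_mem (S.inv_mem (WS hw')) (hS.conj_mem _ (WS hw) g),
      show d.c _ ∈ B by rw [c_div, e1, sub_self, smul_zero]; exact B.zero_mem⟩, by simp⟩
  · exact (I.iff _ (mul_mem (mul_mem (mul_mem hw hw') (inv_mem hw)) (inv_mem hw'))).1
      ((chi_one (d := d) (L := KK X N hN)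
      (k := ⟨w, hW hw⟩ * ⟨w', hW hw'⟩ * ⟨w, hW hw⟩⁻¹ * ⟨w', hW hw'⟩⁻¹) (h := h3)).1 (by
      simp only [map_mul, map_inv, mul_inv_cancel_comm, mul_inv_cancel]))

end

open V

variable [IsPretransitive G X]
  (e : Dat G X C) {p a : ℕ} (hp : p.Prime) (he : e.N2 = p ^ a) (hpN : e.N1.Coprime p)
  (hC : ∀ v : C, p ^ a • v = 0)

include hp he hpN hC

theorem mid3 {B' : AddSubgroup C} (hK : K.Normal) (hN : N.Normal) (J : Lay e K B') (hl : K < N)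
    (h2 : ∀ a ∈ N, a ^ p ∈ K) (min : ∀ M : Subgroup G, M.Normal → K < M → M ≤ N → N ≤ M)
    (ex2 : ∃ ρ ∈ KK X N hN, ∃ n ∈ N, n⁻¹ * ρ * n * ρ⁻¹ ∉ K)
    (IR : ∀ (y : X) (F : Subgroup G), DD K hK y ⊓ N ≤ F → F ≤ N →
      (∀ l ∈ KK X N hN, ∀ m ∈ F, l * m * l⁻¹ ∈ F) → F ≤ DD K hK y ∨ N ≤ F) :
    ∃ (D Y : AddSubgroup C) (Δ : Subgroup G), (∀ (g : G) v, v ∈ D → g • v ∈ D) ∧ B' ≤ D ∧
      (∀ v, v ∈ Y ↔ ∀ n ∈ N, n • v - v ∈ D) ∧
      (∀ y : X, ∀ n ∈ N, n • e.b y - e.b y ∈ D → n ∈ DD K hK y) ∧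
      (∀ (g : G) v, v ∈ Y → g • v ∈ Y) ∧ Y ≠ ⊤ ∧
      (∀ g, g ∈ Δ ↔ ∀ v, g • v - v ∈ Y) ∧ KK X N hN ≤ Δ ∧
      (∀ y : X, ∀ g ∈ Δ, ∀ n ∈ N, n ∈ DD K hK y → g * n * g⁻¹ ∈ DD K hK y) ∧
      ∀ u ∈ Δ, (∀ n ∈ N, n⁻¹ * u * n * u⁻¹ ∈ K) → e.c u ∈ Y := by
  have CM := @com G X C _ _ _ _ K N hN e B'
  obtain ⟨D, hD, BD, nD, v, v0, hv, mx⟩ := mxl (N := N) e hp he hC J.sta
    fun h => hl.not_ge fun n hn => by
      obtain ⟨u, hu, -, e2, e3⟩ := fp e hpN h2 hn hN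
      simpa using mul_mem ((J.iff u hu).1 (e2 ▸ CM J hl min ex2 J.sta le_rfl h n hn)) e3
  let Y := fv D (N : Set G)
  have hY : ∀ (g : G) v, v ∈ Y → g • v ∈ Y := fv_sta hD fun t ht g => hN.conj_mem' t ht g
  have DY : D ≤ Y := le_fv hD _
  have NY := mx Y hY DY (mem_fv.2 fun n hn => by
    obtain ⟨u, hu, -, -, e3⟩ := fp e hpN h2 hn hN
    simpa [smul_sub, mul_smul] using D.add_mem (hD u _ (BD (J.tri _ e3 v))) (hv u hu))
  let Δ : Subgroup G := ⨅ v, fx Y hY v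
  have hΔ : ∀ g, g ∈ Δ ↔ ∀ v, g • v - v ∈ Y := fun g => Subgroup.mem_iInf
  have nΔ : Δ.Normal := ⟨fun g hg k => (hΔ _).2 fun v => by
    simpa [smul_sub, mul_smul] using hY k _ ((hΔ g).1 hg (k⁻¹ • v))⟩
  have LΔ : KK X N hN ≤ Δ := fun l h => (hΔ l).2 (Ltri e hN NY l h)
  have nor : ∀ y : X, N ⊓ fx D hD (e.b y) ≤ DD K hK y ∧
      ∀ g ∈ Δ, ∀ n ∈ N, n ∈ DD K hK y → g * n * g⁻¹ ∈ DD K hK y := fun y => by
    have inv : ∀ g ∈ Δ, ∀ m ∈ N ⊓ fx D hD (e.b y), g * m * g⁻¹ ∈ N ⊓ fx D hD (e.b y) :=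
      fun g hg m hm => ⟨hN.conj_mem m hm.1 g, by
        have := hD g _ (D.add_mem hm.2 (mem_fv.1 ((hΔ _).1 (inv_mem hg) (e.b y)) m hm.1))
        show (g * m * g⁻¹) • e.b y - e.b y ∈ D
        convert this using 1
        simp only [smul_sub, smul_add, mul_smul, smul_inv_smul]
        abel⟩
    have l : DD K hK y ⊓ N ≤ N ⊓ fx D hD (e.b y) := fun m ⟨⟨k, hk, e2⟩, hm⟩ => ⟨hm, by
      show m • e.b y - e.b y ∈ D
      rw [← e.hb, e2, e.hb]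
      exact BD (J.tri k hk _)⟩
    have l2 := (IR y _ l inf_le_left fun ρ a1 => inv ρ (LΔ a1)).resolve_right
      fun h => nD (all_b (d := e) hD hN y fun m hm => (h hm).2)
    exact ⟨l2, fun g hg n hn h => l2 (inv g hg n (l ⟨h, hn⟩))⟩
  let T : Set G := {u | u ∈ Δ ∧ ∀ n ∈ N, n⁻¹ * u * n * u⁻¹ ∈ K}
  have g3 := CM (J := fv D T) J hl min ex2 (fv_sta hD fun t ht g =>
    ⟨nΔ.conj_mem' t ht.1 g, fun n hn => by
      simpa [mul_assoc] using hK.conj_mem' _ (ht.2 _ (hN.conj_mem n hn g)) g⟩)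
    (BD.trans (le_fv hD _)) fun n hn v => mem_fv.2 fun u hu => by
      have := D.add_mem (hD n _ (BD (J.tri _ (hu.2 n hn) (u • v))))
        (mem_fv.1 ((hΔ u).1 hu.1 v) n hn)
      convert this using 1
      simp only [smul_sub, mul_smul, inv_smul_smul, smul_inv_smul]
      abel
  refine ⟨D, Y, Δ, hD, BD, fun v => mem_fv, fun y n hn h => (nor y).1 ⟨hn, h⟩, hY,
    fun h => nD fun n hn v => mem_fv.1 (show v ∈ Y from h ▸ trivial) n hn, hΔ, LΔ,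
    fun y => (nor y).2, fun u h g2 => mem_fv.2 fun n hn => ?_⟩
  have k1 := g2 n hn
  have k2 : e.c (u * n) = e.c (n * (n⁻¹ * u * n * u⁻¹ * u)) := by congr 1; group
  rw [e.hc u n, e.hc n, e.hc _ u] at k2
  have := D.sub_mem (D.sub_mem (mem_fv.1 (g3 n hn) u ⟨h, g2⟩) (hD n _ (BD (cK J k1))))
    (hD n _ (BD (J.tri _ k1 (e.c u))))
  convert this using 1
  rw [smul_sub, eq_sub_of_add_eq' k2, smul_add]
  abel

end Pool.Agent.P.MP_6d14ae_al.F
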