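import Pool.Agent.P.MP_6d14ae_al.F.Lin
import Pool.Agent.P.MP_6d14ae_al.F.Mid

/-! The case of a kernel with at most four orbits. -/

set_option autoImplicit false

namespace Pool.Agent.P.MP_6d14ae_al.F

open MulAction T V
open S hiding Dat Lay c_one c_div facN ext_b triK next chi chi_one

variable {G X A C : Type} [Group G] [Finite G] [MulAction G X] [IsPretransitive G X]
  [AddCommGroup A] [DistribMulAction G A] [AddCommGroup C] [DistribMulAction G C]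
  {K N O : Subgroup G} (d : Dat G X A) {B : AddSubgroup A} (I : Lay d K B) (hN : N.Normal)
  (hO : O.Normal) {r p b : ℕ} (hd : d.N2 = r ^ b) (cp : (r ^ b).Coprime p)
  (O1 : ∀ a ∈ O, a ^ p ∈ K) (KN : K ≤ N) (NO : N ≤ O)
  (h3 : ∀ k ∈ KK X N hN, ∀ v, k • v - v ∈ B) (hW : d.W ≤ KK X N hN)
  (hWO : ∀ g, ∀ w ∈ d.W, ∃ w' ∈ d.W, ∃ o ∈ O, g * w * g⁻¹ = w' * o)

omit [Finite G] [IsPretransitive G X] in
include I hO hd cp O1 in
theorem cO {w w' o : G} (hw : w ∈ d.W) (hw' : w' ∈ d.W) (ho : o ∈ O)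
    (h : d.c (w' * o) - d.c w ∈ B) : w⁻¹ * w' ∈ K := by
  obtain ⟨v, hv, e1⟩ := d.hs (d.c o)
  have h1 := I.sta w' _ (e1 ▸ (I.iff v hv).2
    (cop K cp (hd ▸ d.hW v hv ▸ K.one_mem) (O1 v (facN d O hO ho hv e1))))
  refine (I.iff _ (mul_mem (inv_mem hw) hw')).1 (c_div d w w' ▸ I.sta _ _ ?_)
  convert sub_mem h h1 using 1
  rw [d.hc]; abel

omit [Finite G] [IsPretransitive G X] in
include I hO hd cp O1 KN NO h3 hW hWO in
theorem cW {w w' : G} {t : X} (hw : w ∈ d.W) (hw' : w' ∈ d.W) (e1 : d.c w = d.b t) (h : G)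
    (e2 : d.c w' - d.b (h • t) ∈ B) : w'⁻¹ * (h * w * h⁻¹) ∈ O := by
  obtain ⟨v, hv, o, ho, e3⟩ := hWO h w hw
  have h1 := h3 _ ((KK_normal N hN).conj_mem w (hW hw) h) (d.c h)
  have h2 := d.hc (h * w * h⁻¹) h
  rw [inv_mul_cancel_right, d.hc, e1, ← d.hb] at h2
  rw [e3] at h1 h2 ⊢
  rw [← mul_assoc]
  refine mul_mem (NO (KN (cO d I hO hd cp O1 hw' hv ho ?_))) ho
  convert neg_mem (add_mem h1 e2) using 1
  rw [eq_sub_of_add_eq h2.symm]; abel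

include I hO hd cp O1 KN NO h3 hW hWO in
theorem four {a k : ℕ} (e : Dat G X C) (hr : r.Prime) (hp : p.Prime) (p2 : p ≠ 2)
    (hpN : e.N1.Coprime p) (hC : ∀ v : C, p ^ a • v = 0) (hrN : d.N1.Coprime r)
    (hGr : ∀ g : G, (g ^ d.N1) ^ r ^ b = 1) (hGp : ∀ g : G, (g ^ e.N1) ^ p ^ a = 1)
    (hWc : ∀ w ∈ d.W, e.c w = 0) (OL : O ≤ KK X N hN)
    (O2 : ∀ a ∈ O, ∀ b ∈ O, a * b * a⁻¹ * b⁻¹ ∈ K)
    (com' : ∀ w ∈ d.W, ∀ w' ∈ d.W, w * w' * w⁻¹ * w'⁻¹ ∈ K) {B' D Y : AddSubgroup C}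
    {Δ : Subgroup G} (J : Lay e K B')
    (CM : ∀ Z : AddSubgroup C, (∀ (g : G) v, v ∈ Z → g • v ∈ Z) → B' ≤ Z →
      (∀ n ∈ N, ∀ v, n • v - v ∈ Z) → ∀ n ∈ N, e.c n ∈ Z)
    (IR : ∀ (y : X), ∀ w ∈ d.W, ¬tv I.nor N y w → ∀ F : Subgroup G, DD K I.nor y ⊓ N ≤ F → F ≤ N →
      (∀ m ∈ F, w * m * w⁻¹ ∈ F) → F ≤ DD K I.nor y ∨ N ≤ F)
    (hD : ∀ (g : G) v, v ∈ D → g • v ∈ D) (BD : B' ≤ D)
    (mY : ∀ v, v ∈ Y ↔ ∀ n ∈ N, n • v - v ∈ D)
    (Rb : ∀ y : X, ∀ n ∈ N, n • e.b y - e.b y ∈ D → n ∈ DD K I.nor y)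
    (hY : ∀ (g : G) v, v ∈ Y → g • v ∈ Y) (Y0 : Y ≠ ⊤) (hΔ : ∀ g, g ∈ Δ ↔ ∀ v, g • v - v ∈ Y)
    (LΔ : KK X N hN ≤ Δ) (hn : Δ.Normal) {g : G} {x y : X} (dg : d.c g = d.b x)
    (eg : e.c g = e.b x) (c2 : g ^ k • y = y) (k2 : ¬2 ∣ k) (kp : ¬p ∣ k)
    (c4 : ∀ j : ℕ, g ^ j • y = y → r ∣ j) (sm : (stabilizer G y).relIndex (DD K I.nor y) < r)
    (T1 : g * g ∈ Δ)
    (T2 : ∀ z z' : X, ∃ h : G, ∃ m ∈ Δ, ∃ m' ∈ Δ, h • z = m • z' ∧ h • z' = m' • z)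
    (T3 : g ∉ DD Δ hn x →
      (∀ z : X, g ∈ DD Δ hn z ∨ (∃ m ∈ Δ, z = m • x) ∨ ∃ m ∈ Δ, z = m • g • x) ∧
      (e.W ≤ Δ ∨ ∃ h ∈ DD Δ hn x, g ∈ DD Δ hn (h • g • x))) : False := by
  have hK := I.nor
  have : Finite C := Finite.of_surjective e.c fun v => let ⟨w, _, h⟩ := e.hs v; ⟨w, h⟩
  let _ := Z.quoAct D hD
  let π : C → C ⧸ D := QuotientAddGroup.mk
  have qe : ∀ (h : G) (v : C), h • π v = π v ↔ h • v - v ∈ D := fun h v =>
    QuotientAddGroup.eq_iff_sub_mem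
  have qY : ∀ v : C, π v ∈ fv ⊥ (N : Set G) ↔ v ∈ Y := fun v => by
    simp only [mem_fv, mY, AddSubgroup.mem_bot, sub_eq_zero, qe, SetLike.mem_coe]
  have K1 : ∀ k ∈ K, ∀ v : C ⧸ D, k • v = v := by
    rintro k hk ⟨v⟩
    exact (qe k v).2 (BD (J.tri k hk v))
  let L : Lin X (C ⧸ D) N Δ :=
    { c := fun g => π (e.c g), b := fun x => π (e.b x), Y := fv ⊥ (N : Set G), hN := hN
      hc := fun g h => congrArg π (e.hc g h), hb := fun g x => congrArg π (e.hb g x)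
      hg := by
        have := congrArg (AddSubgroup.map (QuotientAddGroup.mk' D)) e.hg
        rwa [AddMonoidHom.map_closure, ← Set.range_comp,
          AddSubgroup.map_top_of_surjective _ (QuotientAddGroup.mk'_surjective D)] at this
      mY := fun v => by simp [mem_fv, sub_eq_zero]
      mΔ := fun g => (hΔ g).trans ⟨fun h => by
        rintro ⟨v⟩
        exact (qY _).2 (h v), fun h v => (qY _).1 (h (π v))⟩
      NΔ := (W.le_KK hN).trans LΔ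
      K0 := fun n hn h => (QuotientAddGroup.eq_zero_iff _).2
        (BD (cK J (I.clo n fun z => Rb z n hn ((qe _ _).1 (h z)))))
      cN := fun Z h n hn => by
        let Z0 := AddSubgroup.closure {v : C ⧸ D | ∃ n ∈ N, ∃ t, n • t - t = v}
        refine (AddSubgroup.closure_le Z).2 (by rintro _ ⟨n, hn, t, rfl⟩; exact h n hn t)
          (CM (Z0.comap (QuotientAddGroup.mk' D)) (fun g v hv => ?_) (fun v hv => ?_)
            (fun n hn v => AddSubgroup.subset_closure ⟨n, hn, π v, rfl⟩) n hn)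
        · refine (AddSubgroup.closure_le (Z0.comap (DistribSMul.toAddMonoidHom _ g))).2 ?_ hv
          rintro _ ⟨n, hn, t, rfl⟩
          exact AddSubgroup.subset_closure ⟨_, hN.conj_mem n hn g, g • t, by
            simp [mul_smul, smul_sub]⟩
        · show π v ∈ Z0
          rw [show π v = 0 from (QuotientAddGroup.eq_zero_iff _).2 (BD hv)]
          exact zero_mem _
      bY := fun x h => Y0 (W.btop e hY ((qY _).1 h)) }
  have hQ : ∀ v : C ⧸ D, p ^ a • v = 0 := by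
    rintro ⟨v⟩
    show p ^ a • π v = 0
    rw [← QuotientAddGroup.mk_nsmul, hC]; rfl
  have KD : ∀ z, ∀ n ∈ DD K hK z, n • L.b z = L.b z := fun z n ⟨k, hk, e1⟩ => by
    rw [← L.hb, e1, L.hb, K1 k hk]
  have OU : ∀ o ∈ O, ∀ z, ∀ t ∈ L.U (L.b z), o • t = t := by
    rintro o ho z _ ⟨n, hn, rfl⟩
    rw [L.cb hn (LΔ (OL ho)), ← K1 _ (O2 o ho n (NO hn)) (n • _), ← mul_smul,
      inv_mul_cancel_right]
  have DY : ∀ z, ∀ h ∈ DD Δ hn z, h • L.b z - L.b z ∈ L.Y := fun z h ⟨k, hk, e1⟩ => by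
    rw [← L.hb, e1, L.hb]
    exact (L.mΔ k).1 hk _
  have WΔ := hW.trans LΔ
  choose ω ω1 ω2 using fun t => d.hs (d.b t)
  have CW := fun t t' h => cW d I hN hO hd cp O1 KN NO h3 hW hWO (ω1 t) (ω1 t') (ω2 t) h
  have E : ∀ (h : G) t z, (∃ v ∈ L.U (L.b z), ω t • v ≠ v) →
      ∃ v ∈ L.U (L.b (h • z)), ω (h • t) • v ≠ v := fun h t z ⟨v, hv, v0⟩ => by
    have h1 : h • v ∈ L.U (L.b (h • z)) := L.hb h z ▸ L.Us h hv
    refine ⟨_, h1, fun k => v0 (smul_left_cancel h ?_)⟩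
    have := OU _ (CW t (h • t) h (by simp [ω2])) _ _ h1
    rwa [mul_smul, inv_smul_eq_iff, k, mul_smul, inv_smul_smul, mul_smul] at this
  have A1 : ∃ j : ℕ, ∃ v ∈ L.U (L.b y), ω (g ^ j • x) • v ≠ v := by
    by_contra! H
    have a1 : ∀ m : ℕ, ∃ w ∈ d.W, (∀ v ∈ L.U (L.b y), w • v = v) ∧ d.c (g ^ m) - d.c w ∈ B :=
      fun m => by
        induction m with
        | zero => exact ⟨1, one_mem _, by simp, by simp⟩
        | succ m ih =>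
          obtain ⟨w, hw, a1, a2⟩ := ih
          refine ⟨w * ω (g ^ m • x), mul_mem hw (ω1 _), fun v hv => by
            rw [mul_smul, H m v hv, a1 v hv], ?_⟩
          convert sub_mem a2 (h3 w (hW hw) (d.b (g ^ m • x))) using 1
          rw [pow_succ, d.hc, d.hc, ω2, dg, d.hb]; abel
    obtain ⟨w, hw, a2, a3⟩ := a1 d.N1
    have hS : (d.W ⊔ O).Normal := ⟨fun s hs g => by
      obtain ⟨w, hw, o, ho, rfl⟩ := Subgroup.mem_sup_of_normal_right.1 hs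
      obtain ⟨w', hw', o', ho', e1⟩ := hWO g w hw
      have := mul_mem (mul_mem (Subgroup.mem_sup_left (T := O) hw') (Subgroup.mem_sup_right ho'))
        (Subgroup.mem_sup_right (hO.conj_mem o ho g))
      rw [← e1] at this
      simpa [mul_assoc] using this⟩
    obtain ⟨w1, hw1, e1⟩ := d.hs (d.c (g ^ d.N1))
    have a4 := powmod (d.W ⊔ O) ⊤ (fun g _ m hm => hS.conj_mem m hm g) (Subgroup.mem_sup_left hw1)
      (Subgroup.mem_top (w1⁻¹ * g ^ d.N1)) d.N1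
    rw [d.hP (w1⁻¹ * _) (by rw [c_div, e1, sub_self, smul_zero]), mul_inv_cancel_left, inv_one,
      mul_one] at a4
    obtain ⟨w2, hw2, o, ho, e2⟩ := Subgroup.mem_sup_of_normal_right.1
      (cop _ (hrN.pow_right b) a4 (hGr g ▸ one_mem _))
    have a5 := cO d I hO hd cp O1 hw hw2 ho (e2 ▸ a3)
    have a6 : ∀ v ∈ L.U (L.b y), g ^ d.N1 • v = v := fun v hv => by
      have := K1 _ a5 v
      rw [mul_smul, inv_smul_eq_iff, a2 v hv] at this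
      rw [← e2, mul_smul, OU o ho y v hv, this]
    obtain ⟨n, hn, e3⟩ := mem_KK.1 (e2 ▸ mul_mem (hW hw2) (OL ho)) y
    have a7 := hGr g
    have a8 := mt (c4 _) (hr.coprime_iff_not_dvd.1 hrN.symm)
    generalize g ^ d.N1 = γ at *
    have a9 : ∀ j : ℕ, γ ^ j • L.b y - L.b y = j • (n • L.b y - L.b y) := fun j => by
      induction j with
      | zero => simp
      | succ j ih =>
        rw [pow_succ', mul_smul, eq_add_of_sub_eq ih, smul_add, smul_comm γ, a6 _ ⟨n, hn, rfl⟩,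
          ← L.hb γ, e3, L.hb, succ_nsmul, add_sub_assoc]
    have b1 := Z.acop ⊥ (cp.pow_right a) (v := n • L.b y - L.b y)
      (by rw [← a9, a7]; simp) (hQ _ ▸ zero_mem _)
    have b2 : Subgroup.zpowers γ ≤ DD K hK y := Subgroup.zpowers_le.2
      (e3 ▸ Rb y n hn ((qe _ _).1 (sub_eq_zero.1 b1)) : ∃ k ∈ K, γ • y = k • y)
    obtain ⟨i, -, hi⟩ := (Nat.dvd_prime_pow hr).1 ((Subgroup.relIndex_dvd_card (stabilizer G y) _).trans
      (Nat.card_zpowers γ ▸ orderOf_dvd_of_pow_eq_one a7))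
    have b3 := (Subgroup.relIndex_le_of_le_right (H := stabilizer G y) b2
      Subgroup.index_ne_zero_of_finite).trans_lt sm
    rcases i with _ | i
    · exact a8 (Subgroup.relIndex_eq_one.1 hi (Subgroup.mem_zpowers γ))
    · exact b3.not_ge (hi ▸ Nat.le_self_pow i.succ_ne_zero r)
  obtain ⟨j, A1⟩ := A1
  have A2 := E (g ^ j)⁻¹ _ _ A1
  have c3 : g ^ k • (g ^ j)⁻¹ • y = (g ^ j)⁻¹ • y := by
    rw [smul_smul, ((Commute.refl g).pow_pow k j).inv_right.eq, mul_smul, c2]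
  rw [inv_smul_smul] at A2
  generalize (g ^ j)⁻¹ • y = y' at A2 c3
  obtain ⟨h, m, hm, m', hm', e1, e2⟩ := T2 x y'
  obtain ⟨v, hv, v0⟩ := E m⁻¹ _ _ (E h _ _ A2)
  rw [e1, inv_smul_smul] at v0
  rw [e2, smul_smul, L.hb] at hv
  refine L.main hp p2 hQ (hp.coprime_iff_not_dvd.1 hpN.symm) hGp (WΔ (ω1 y'))
    (congrArg π (hWc _ (ω1 y'))) (fun z ⟨t, ht, t0⟩ Z l hZ => ?_) (congrArg π eg) T1 k2 kp
    (fun z t ht => ?_) (fun u z t ht => ?_)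
    ⟨v, L.Ue (Or.inl ((L.mΔ _).1 (mul_mem (inv_mem hm) hm') _)) hv, v0⟩ fun h0 => ?_
  · let F : Subgroup G :=
      { carrier := {n | n ∈ N ∧ n • L.b z - L.b z ∈ Z}
        one_mem' := ⟨one_mem _, by simp⟩
        mul_mem' := fun {a b} ha hb => ⟨mul_mem ha.1 hb.1, L.ad ha.1 hb.1 _ ▸ add_mem ha.2 hb.2⟩
        inv_mem' := fun {a} ha => ⟨inv_mem ha.1, by
          have := L.ad ha.1 (inv_mem ha.1) (L.b z)
          rw [mul_inv_cancel, one_smul, sub_self] at this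
          exact eq_neg_of_add_eq_zero_right this.symm ▸ neg_mem ha.2⟩ }
    refine (IR z _ (ω1 y') (fun k => t0 ?_) F (fun n hn => ⟨hn.2, by simp [KD z n hn.1]⟩)
      (fun n hn => hn.1) fun n hn => ⟨hN.conj_mem n hn.1 _,
        L.cb hn.1 (WΔ (ω1 y')) _ ▸ hZ _ hn.2⟩).imp (fun k => eq_bot_iff.2 fun s hs => ?_)
      fun k => le_antisymm l ?_
    · obtain ⟨n, hn, rfl⟩ := ht
      rw [← sub_eq_zero, ← L.wn hn (WΔ (ω1 y')), KD z _ (k n hn), sub_self]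
    · obtain ⟨n, hn, rfl⟩ := l hs
      simp [KD z n (k ⟨hn, hs⟩)]
    · rintro _ ⟨n, hn, rfl⟩
      exact (k hn).2
  · have := OU _ (CW y' y' (g ^ k) (by simp [ω2, c3])) _ _ (L.hb _ z ▸ L.Us (g ^ k) ht)
    rwa [mul_smul, inv_smul_eq_iff, mul_smul, inv_smul_smul, mul_smul] at this
  · obtain ⟨w', hw', o, ho, e3⟩ := hWO u _ (ω1 y')
    rw [e3, mul_smul, mul_smul, OU o ho z t ht, OU o ho z _ (L.UΔ (WΔ (ω1 y')) _ t ht),
      ← K1 _ (com' w' hw' _ (ω1 y')) (ω y' • w' • t)]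
    simp [mul_smul]
  · obtain ⟨t1, t2⟩ := T3 fun k => h0 (DY x g k)
    refine ⟨fun z => (t1 z).imp (DY z g) (Or.imp ?_ ?_), t2.imp (fun l => ?_)
      fun ⟨h, b1, b2⟩ => ⟨h, DY x h b1, by simpa only [L.hb] using DY _ g b2⟩⟩
    · rintro ⟨m, hm, rfl⟩
      exact L.hb m _ ▸ (L.mΔ m).1 hm _
    · rintro ⟨m, hm, rfl⟩
      simpa only [L.hb] using (L.mΔ m).1 hm (g • L.b x)
    · obtain ⟨u, hu, e3⟩ := e.hs (e.b x)
      exact ⟨u, l hu, congrArg π e3⟩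

end Pool.Agent.P.MP_6d14ae_al.F
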