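import Pool.Agent.P.MP_6d14ae_al.Z.All

/-! The determinant argument on one component of a commutative ring of scalars. -/

set_option autoImplicit false

namespace Pool.Agent.P.MP_6d14ae_al.F

open Z Module

theorem ks3 {S V U P ι : Type} [CommRing S] [Finite S] [AddCommGroup V] [Module S V] [Finite V]
    [AddCommGroup U] [Module S U] [Finite U] [Group P] [DistribMulAction P V]
    [DistribMulAction P U] [Fintype ι] [Nonempty ι] {p : ℕ} (hp : p.Prime) (hP : IsPGroup p P)
    (h0 : (p : S) = 0) (c1 : ∀ (g : P) (c : S) (v : V), g • c • v = c • g • v)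
    (c2 : ∀ (g : P) (c : S) (v : U), g • c • v = c • g • v) (m : Ideal S) (hm : m.IsMaximal)
    {ε : S} (e1 : 1 - ε ∈ m) (e2 : ∀ c ∈ m, ε * c = 0) (M : V →ₗ[S] U)
    (hM : Function.Surjective M) (R : ι → Submodule S V) (E : ∀ i, (V ⧸ R i) ≃ₗ[S] S ⧸ m)
    (Δ : ι → V →ₗ[S] U) (d0 : ∀ i, ∀ n ∈ R i, Δ i n = 0) (d1 : ∀ i, ∃ n, Δ i n ≠ 0)
    (hφ : ∀ n, (∀ c ∈ m, c • n = 0) → (∀ i, n ∈ R i) → n = 0)
    (h : ∀ T : Finset ι, ∃ g : P, ∀ n, M n + ∑ i ∈ T, Δ i n = g • M (g⁻¹ • n)) : False := by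
  classical
  let _ := Ideal.Quotient.field m
  have : CharP (S ⧸ m) p := (CharP.charP_iff_prime_eq_zero hp).2
    (by rw [← map_natCast (Ideal.Quotient.mk m), h0, map_zero])
  have : Finite (S ⧸ m) := Finite.of_surjective _ Ideal.Quotient.mk_surjective
  let N := Submodule.torsionBySet S V m
  let N' := Submodule.torsionBySet S U m
  have mN : ∀ v : V, v ∈ N ↔ ∀ c ∈ m, c • v = 0 := fun v =>
    (Submodule.mem_torsionBySet_iff _ _).trans ⟨fun h c hc => h ⟨c, hc⟩, fun h c => h c c.2⟩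
  have mN' : ∀ v : U, v ∈ N' ↔ ∀ c ∈ m, c • v = 0 := fun v =>
    (Submodule.mem_torsionBySet_iff _ _).trans ⟨fun h c hc => h ⟨c, hc⟩, fun h c => h c c.2⟩
  have eN : ∀ v : V, ε • v ∈ N := fun v => (mN _).2 fun c hc => by
    rw [smul_smul, mul_comm, e2 c hc, zero_smul]
  let rs : (V →ₗ[S] U) → N →ₗ[S ⧸ m] N' := fun L =>
    { toFun := fun n => ⟨L n, (mN' _).2 fun c hc => by rw [← map_smul, (mN _).1 n.2 c hc, map_zero]⟩
      map_add' := fun a b => Subtype.ext (map_add L _ _)
      map_smul' := by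
        rintro ⟨c⟩ n
        exact Subtype.ext (map_smul L c n.1) }
  let ρ : P →* End (S ⧸ m) N :=
    { toFun := fun g =>
        { toFun := fun n => ⟨g • n.1, (mN _).2 fun c hc => by
            rw [← c1, (mN _).1 n.2 c hc, smul_zero]⟩
          map_add' := fun a b => Subtype.ext (smul_add g a.1 b.1)
          map_smul' := by
            rintro ⟨c⟩ n
            exact Subtype.ext (c1 g c n.1) }
      map_one' := LinearMap.ext fun n => Subtype.ext (one_smul P n.1)
      map_mul' := fun g g' => LinearMap.ext fun n => Subtype.ext (mul_smul g g' n.1) }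
  let θ : P →* End (S ⧸ m) N' :=
    { toFun := fun g =>
        { toFun := fun n => ⟨g • n.1, (mN' _).2 fun c hc => by
            rw [← c2, (mN' _).1 n.2 c hc, smul_zero]⟩
          map_add' := fun a b => Subtype.ext (smul_add g a.1 b.1)
          map_smul' := by
            rintro ⟨c⟩ n
            exact Subtype.ext (c2 g c n.1) }
      map_one' := LinearMap.ext fun n => Subtype.ext (one_smul P n.1)
      map_mul' := fun g g' => LinearMap.ext fun n => Subtype.ext (mul_smul g g' n.1) }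
  let f : ι → N →ₗ[S ⧸ m] S ⧸ m := fun i =>
    { toFun := fun n => E i (Submodule.Quotient.mk n.1)
      map_add' := fun a b => map_add (E i) (Submodule.Quotient.mk a.1) (Submodule.Quotient.mk b.1)
      map_smul' := by
        rintro ⟨c⟩ n
        exact map_smul (E i) c (Submodule.Quotient.mk n.1) }
  have kl : ∀ i, ∀ c ∈ m, ∀ v, c • v ∈ R i := fun i c hc v => by
    refine (Submodule.Quotient.mk_eq_zero _).1 ((E i).injective ?_)
    rw [Submodule.Quotient.mk_smul, map_smul, map_zero]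
    obtain ⟨y, hy⟩ := Ideal.Quotient.mk_surjective (E i (Submodule.Quotient.mk v))
    rw [← hy]
    exact Ideal.Quotient.eq_zero_iff_mem.2 (m.mul_mem_right y hc)
  have ev : ∀ i v, Submodule.Quotient.mk (p := R i) (ε • v) = Submodule.Quotient.mk v := fun i v =>
    ((Submodule.Quotient.eq _).2 (by simpa [sub_smul] using kl i _ e1 v)).symm
  have f0 : ∀ i n, f i n = 0 → n.1 ∈ R i := fun i n h =>
    (Submodule.Quotient.mk_eq_zero _).1 ((E i).map_eq_zero_iff.1 h)
  have ex : ∀ i, ∃ n : N, f i n = 1 := fun i => by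
    obtain ⟨v, hv⟩ := (R i).mkQ_surjective ((E i).symm 1)
    exact ⟨⟨_, eN v⟩, (congrArg (E i) ((ev i v).trans hv)).trans ((E i).apply_symm_apply 1)⟩
  choose n0 f2 using ex
  have rk : ∀ i n, rs (Δ i) n = f i n • rs (Δ i) (n0 i) := fun i n => by
    rw [← map_smul, ← sub_eq_zero, ← map_sub]
    exact Subtype.ext (d0 i _ (f0 i _ (by simp [f2])))
  have ne : ∀ i, rs (Δ i) (n0 i) ≠ 0 := fun i k => by
    obtain ⟨n, hn⟩ := d1 i
    have a1 := rk i ⟨_, eN n⟩
    rw [k, smul_zero] at a1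
    have a2 := d0 i _ (kl i _ e1 n)
    rw [sub_smul, one_smul, map_sub, show Δ i (ε • n) = 0 from congrArg Subtype.val a1,
      sub_zero] at a2
    exact hn a2
  have : Nontrivial N' := ⟨_, _, ne (Classical.arbitrary ι)⟩
  refine la hp hP ρ θ (rs M) (fun u => ?_) f _ ne
    (fun n k => Subtype.ext (hφ n ((mN _).1 n.2) fun i => f0 i n (k i))) fun T => ?_
  · obtain ⟨v, hv⟩ := hM u
    refine ⟨⟨_, eN v⟩, Subtype.ext ?_⟩
    have := (mN' _).1 u.2 _ e1
    rw [sub_smul, one_smul, sub_eq_zero] at this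
    exact ((map_smul M ε v).trans (congrArg _ hv)).trans this.symm
  obtain ⟨g, hg⟩ := h T
  refine ⟨g, fun n => Subtype.ext (Eq.trans ?_ (hg n))⟩
  simp only [← rk]
  rw [Submodule.coe_add, Submodule.coe_sum]
  rfl

end Pool.Agent.P.MP_6d14ae_al.F
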