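import Pool.Agent.P.MP_6d14ae_al.F.Fa

/-! The contradiction for hyperplane stabilisers, given a central scalar. -/

set_option autoImplicit false

namespace Pool.Agent.P.MP_6d14ae_al.F

open MulAction T Z Module
open S hiding Dat Lay c_one c_div facN ext_b triK next chi chi_one

variable {G X C V U : Type} [Group G] [MulAction G X] [AddCommGroup C] [DistribMulAction G C]
  [AddCommGroup V] [DistribMulAction G V] [AddCommGroup U] [DistribMulAction G U]
  {e : Dat G X C} {p a r : ℕ} (s : St e V p a r)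

theorem last2 [Finite G] [Finite X] [Finite V] [Finite U] {k : ℕ} (k0 : k ≠ 0) {w0 : G}
    (hw0 : w0 ∈ s.W) (cw : ∀ u ∈ e.W, u * w0 * u⁻¹ * w0⁻¹ ∈ s.O) (n0 : ∃ v : V, w0 • v ≠ v)
    (ord : ∀ i, r ∣ p ^ i - 1 → k ∣ i) (RW : ∀ x, ∀ w ∈ s.W, ∀ v ∈ s.R x, w • v ∈ s.R x)
    (Ri : ∀ x, (s.R x).index = p ^ k) (R0 : ∀ v, (∀ x, v ∈ s.R x) → v = 0)
    (hO : ∀ o ∈ s.O, ∀ u : U, o • u = u) (M : C → V →+ U) (m1 : Function.Surjective (M 0))
    (m2 : ∀ g n, M (e.c g) n = g • M 0 (g⁻¹ • n))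
    (m3 : ∀ t x, ∀ n ∈ s.R x, M (t + e.b x) n = M t n)
    (m4 : ∀ x, ∃ t n, M (t + e.b x) n ≠ M t n) : False := by
  classical
  have hP : IsPGroup p e.W := fun u => ⟨a, Subtype.ext (s.he ▸ e.hW u u.2)⟩
  have mx : ∀ x D, s.R x < D → (∀ w ∈ s.W, ∀ v ∈ D, w • v ∈ D) → D = ⊤ := fun x D h hD => by
    obtain ⟨i, h1, h2⟩ := idx s.hp s.hr s.hrp s.hW s.hV s.VW D hD
    have h3 := AddSubgroup.index_strictAnti h
    simp only [h1, Ri] at h3
    rw [Nat.eq_zero_of_dvd_of_lt (ord i h2) ((Nat.pow_lt_pow_iff_right s.hp.one_lt).1 h3),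
      pow_zero] at h1
    exact AddSubgroup.index_eq_one.1 h1
  have nt : ∀ x, s.R x ≠ ⊤ := fun x h => by
    have := Ri x
    rw [h, AddSubgroup.index_top] at this
    exact (Nat.one_lt_pow k0 s.hp.one_lt).ne this
  let φ := (DistribMulAction.toAddMonoidEnd G V).prod (DistribMulAction.toAddMonoidEnd G U)
  have φO : ∀ o ∈ s.O, φ o = 1 := fun o ho =>
    Prod.ext (AddMonoidHom.ext (s.hO o ho)) (AddMonoidHom.ext (hO o ho))
  let W0 := Subgroup.zpowers w0
  have l0 : W0 ≤ s.W := Subgroup.zpowers_le.2 hw0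
  let S := Subring.closure (φ '' W0)
  have cm := Subring.isMulCommutative_closure (s := φ '' W0) (by
    rintro _ ⟨_, ⟨i, rfl⟩, rfl⟩ _ ⟨_, ⟨j, rfl⟩, rfl⟩
    rw [← map_mul, ← map_mul, zpow_mul_comm])
  let _ : CommRing S := { (inferInstance : Ring S) with mul_comm := cm.is_comm.comm }
  have a1 : ∀ ρ ∈ S, (∀ v, M 0 (ρ.1 v) = ρ.2 (M 0 v)) ∧ (∀ x, ∀ v ∈ s.R x, ρ.1 v ∈ s.R x) ∧
      ∀ g ∈ e.W, Commute (φ g) ρ := fun ρ hρ => by
    induction hρ using Subring.closure_induction with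
    | mem _ h =>
      obtain ⟨w, hw, rfl⟩ := h
      refine ⟨fun v => ?_, fun x => RW x w (l0 hw), fun g hg => ?_⟩
      · have := m2 w (w • v)
        rwa [s.hWc w (l0 hw), inv_smul_smul] at this
      · obtain ⟨i, rfl⟩ := hw
        have : φ.toHomUnits g * φ.toHomUnits w0 = φ.toHomUnits w0 * φ.toHomUnits g := Units.ext (by
          show φ g * φ w0 = φ w0 * φ g
          rw [← map_mul, ← map_mul, ← one_mul (φ (w0 * g)), ← φO _ (cw g hg), ← map_mul]
          congr 1; group)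
        have := (Commute.zpow_right this i).eq
        rw [← map_zpow] at this
        exact congrArg Units.val this
    | zero => exact ⟨fun v => map_zero (M 0), fun x v _ => zero_mem _, fun _ _ => Commute.zero_right _⟩
    | one => exact ⟨fun v => rfl, fun x v h => h, fun _ _ => Commute.one_right _⟩
    | add a b _ _ ha hb =>
      exact ⟨fun v => (map_add (M 0) _ _).trans (congrArg₂ _ (ha.1 v) (hb.1 v)),
        fun x v h => add_mem (ha.2.1 x v h) (hb.2.1 x v h),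
        fun g hg => (ha.2.2 g hg).add_right (hb.2.2 g hg)⟩
    | neg a _ ha =>
      exact ⟨fun v => (map_neg (M 0) _).trans (congrArg _ (ha.1 v)),
        fun x v h => neg_mem (ha.2.1 x v h), fun g hg => (ha.2.2 g hg).neg_right⟩
    | mul a b _ _ ha hb =>
      exact ⟨fun v => (ha.1 _).trans (congrArg _ (hb.1 v)), fun x v h => ha.2.1 x _ (hb.2.1 x v h),
        fun g hg => (ha.2.2 g hg).mul_right (hb.2.2 g hg)⟩
  have a2 : ∀ ρ : S, (∀ v, ρ.1.1 v = 0) → ρ = 0 := fun ρ h =>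
    Subtype.ext (Prod.ext (AddMonoidHom.ext h) (AddMonoidHom.ext fun u => by
      obtain ⟨v, rfl⟩ := m1 u
      exact ((a1 ρ ρ.2).1 v).symm.trans (by rw [h, map_zero]; rfl)))
  have : Finite (AddMonoid.End V) := DFunLike.finite (V →+ V)
  have : Finite (AddMonoid.End U) := DFunLike.finite (U →+ U)
  let _ : Module S V := Module.compHom V ((RingHom.fst _ _).comp S.subtype)
  let _ : Module S U := Module.compHom U ((RingHom.snd _ _).comp S.subtype)
  have c1 : ∀ (g : e.W) (c : S) (v : V), g.1 • c • v = c • g.1 • v := fun g c v =>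
    DFunLike.congr_fun (congrArg Prod.fst ((a1 c c.2).2.2 g g.2).eq) v
  have c2 : ∀ (g : e.W) (c : S) (v : U), g.1 • c • v = c • g.1 • v := fun g c v =>
    DFunLike.congr_fun (congrArg Prod.snd ((a1 c c.2).2.2 g g.2).eq) v
  let I := Set.range s.R
  let D : I → Submodule S V := fun i =>
    { i.1 with smul_mem' := fun ρ v h =>
        let ⟨x, hx⟩ := i.2; hx ▸ (a1 ρ ρ.2).2.1 x v (hx ▸ h) }
  let ω : S := ⟨φ w0, Subring.subset_closure ⟨w0, Subgroup.mem_zpowers w0, rfl⟩⟩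
  have a3 : ∀ i : I, (∀ v, (ω - 1) • v ∈ D i) ∨
      ∃ m : Ideal S, m.IsMaximal ∧ Nonempty ((V ⧸ D i) ≃ₗ[S] S ⧸ m) := by
    rintro ⟨_, x, rfl⟩
    refine or_iff_not_imp_left.2 fun h => isSimpleModule_iff_quot_maximal.1
      (isSimpleModule_iff_isCoatom.2 ⟨fun k => nt x (congrArg Submodule.toAddSubgroup k),
        fun D' l => Submodule.toAddSubgroup_injective ?_⟩)
    let Fx : AddSubgroup V := (s.R x).comap (DistribSMul.toAddMonoidHom V w0 - AddMonoidHom.id V)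
    have l1 : s.R x ≤ Fx := fun v hv => sub_mem (RW x w0 hw0 v hv) hv
    have l2 : Fx ≤ s.R x := by
      by_contra k
      have := mx x Fx ⟨l1, k⟩ fun w hw v hv => by
        have a := RW x w hw _ hv
        have b := s.hO _ (s.com w0 hw0 w hw) (w • w0 • v)
        simp only [smul_smul, mul_assoc, inv_mul_cancel_left, inv_mul_cancel, mul_one] at b
        show w0 • w • v - w • v ∈ s.R x
        rw [smul_smul, b, mul_smul, ← smul_sub]
        exact a
      exact h fun v => by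
        rw [sub_smul, one_smul]
        exact (this ▸ trivial : v ∈ Fx)
    let _ := quoAct (G := s.W) (s.R x) fun w => RW x w w.2
    have l3 : s.R x ≤ D'.toAddSubgroup := l.le
    obtain ⟨i, h1, h2⟩ := idx (G := s.W) (V := V ⧸ s.R x) s.hp s.hr s.hrp
      (W := Subgroup.zpowers ⟨w0, hw0⟩) (s.hW.to_subgroup _) (by
        rintro ⟨v⟩
        show p • (v : V ⧸ s.R x) = 0
        rw [← QuotientAddGroup.mk_nsmul, s.hV]; rfl) (by
        rintro ⟨v⟩ hv
        exact (QuotientAddGroup.eq_zero_iff v).2 (l2 (QuotientAddGroup.eq_iff_sub_mem.1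
          (hv _ (Subgroup.mem_zpowers _)))))
      (D'.toAddSubgroup.map (QuotientAddGroup.mk' _)) (by
        rintro _ ⟨j, rfl⟩ _ ⟨v, hv, rfl⟩
        exact ⟨_, D'.smul_mem ⟨φ (w0 ^ j), Subring.subset_closure ⟨_, ⟨j, rfl⟩, rfl⟩⟩ hv, rfl⟩)
    rw [← AddSubgroup.index_comap_of_surjective _ (QuotientAddGroup.mk'_surjective _),
      AddSubgroup.comap_map_eq, QuotientAddGroup.ker_mk', sup_eq_left.2 l3] at h1
    have h3 := AddSubgroup.index_strictAnti (show s.R x < D'.toAddSubgroup from l)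
    simp only [h1, Ri] at h3
    rw [Nat.eq_zero_of_dvd_of_lt (ord i h2) ((Nat.pow_lt_pow_iff_right s.hp.one_lt).1 h3),
      pow_zero] at h1
    exact AddSubgroup.index_eq_one.1 h1
  have kl : ∀ (i : I) (m : Ideal S), Nonempty ((V ⧸ D i) ≃ₗ[S] S ⧸ m) → ∀ c ∈ m, ∀ v,
      c • v ∈ D i := fun i m ⟨f⟩ c hc v => by
    refine (Submodule.Quotient.mk_eq_zero _).1 (f.injective ?_)
    rw [Submodule.Quotient.mk_smul, map_smul, map_zero]
    obtain ⟨y, hy⟩ := Ideal.Quotient.mk_surjective (f (Submodule.Quotient.mk v))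
    rw [← hy]
    exact Ideal.Quotient.eq_zero_iff_mem.2 (m.mul_mem_right y hc)
  have R1 : ∀ v, (∀ i, v ∈ D i) → v = 0 := fun v h => R0 v fun x => h ⟨_, x, rfl⟩
  obtain ⟨i0, h0⟩ : ∃ i, ¬∀ v, (ω - 1) • v ∈ D i := by
    by_contra! h
    obtain ⟨v, hv⟩ := n0
    have := R1 _ fun i => h i v
    rw [sub_smul, one_smul, sub_eq_zero] at this
    exact hv this
  obtain ⟨m, hm, f0⟩ := (a3 i0).resolve_left h0
  have a4 : ∀ i : I, ∃ c, c ∉ m ∧ (Nonempty ((V ⧸ D i) ≃ₗ[S] S ⧸ m) ∨ ∀ v, c • v ∈ D i) :=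
    fun i => by
      rcases a3 i with h | ⟨m', hm', f⟩
      · exact ⟨_, fun k => h0 (kl i0 m f0 _ k), Or.inr h⟩
      by_cases l : m' ≤ m
      · exact ⟨1, (Ideal.ne_top_iff_one m).1 hm.ne_top, Or.inl (hm'.eq_of_le hm.ne_top l ▸ f)⟩
      · obtain ⟨c, k, k'⟩ := SetLike.not_le_iff_exists.1 l
        exact ⟨c, k', Or.inr (kl i m' f c k)⟩
  choose α α1 α2 using a4
  let _ := Fintype.ofFinite I
  obtain ⟨y, c, hc, e1⟩ := hm.exists_inv (x := ∏ i, α i) fun h =>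
    let ⟨i, _, k⟩ := hm.isPrime.prod_mem_iff.1 h; α1 i k
  let J := {i : I // Nonempty ((V ⧸ D i) ≃ₗ[S] S ⧸ m)}
  have : Nonempty J := ⟨⟨i0, f0⟩⟩
  have top : ∀ i j : I, i ≠ j → i.1 ⊔ j.1 = ⊤ := by
    rintro ⟨_, x, rfl⟩ ⟨_, y, rfl⟩ h
    have inv : ∀ w ∈ s.W, ∀ v ∈ s.R x ⊔ s.R y, w • v ∈ s.R x ⊔ s.R y := fun w hw v hv => by
      obtain ⟨a, ha, b, hb, rfl⟩ := AddSubgroup.mem_sup.1 hv
      exact AddSubgroup.mem_sup.2 ⟨_, RW x w hw a ha, _, RW y w hw b hb, (smul_add _ _ _).symm⟩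
    refine mx x _ (left_lt_sup.2 fun l => nt x (mx y _ (lt_of_le_of_ne l fun k => ?_) (RW x))) inv
    exact h (Subtype.ext k.symm)
  let A : I → Set C := fun i => {v | ∀ t, ∀ n ∈ i.1, M (t + v) n = M t n}
  have hv : ∀ i : I, ∃ v ∈ A i, ∃ n, M v n ≠ M 0 n := fun i => by
    by_contra! h
    have h1 : ∀ t, ∀ v ∈ A i, ∀ n, M (t + v) n = M t n :=
      gen e (pow_pos s.hp.pos a) s.hC _ (by simpa using h) fun t x ih v hv n => by
        by_cases hx : i = ⟨s.R x, x, rfl⟩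
        · subst hx
          rw [add_assoc, ih _ (fun t n hn => by rw [← add_assoc, hv _ n hn, m3 t x n hn]),
            ih _ fun t => m3 t x]
        · have := indep M (fun j : Bool => if j then i.1 else s.R x)
            (by
              rintro (_ | _) (_ | _) h
              exacts [(h rfl).elim, top ⟨s.R x, x, rfl⟩ i (Ne.symm hx), top i ⟨s.R x, x, rfl⟩ hx,
                (h rfl).elim])
            (fun j => if j then v else e.b x) (by
              rintro (_ | _) t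
              · exact m3 t x
              · exact hv t) (i := true) (j := false) (by simp) t n
          simpa [ih v hv n, sub_eq_zero] using this
    obtain ⟨_, x, rfl⟩ := i
    obtain ⟨t, n, h2⟩ := m4 x
    exact h2 (h1 t _ (fun t => m3 t x) n)
  choose v v1 n1 v2 using hv
  have lin : ∀ t (c : S) n, M t (c • n) = c • M t n := fun t c n => by
    obtain ⟨g, hg, rfl⟩ := e.hs t
    rw [m2, m2 g n, c1 ⟨g⁻¹, inv_mem hg⟩, ← c2 ⟨g, hg⟩]
    exact congrArg _ ((a1 c c.2).1 _)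
  let ML : C → V →ₗ[S] U := fun t => { M t with map_smul' := lin t }
  have s1 : ∀ T : Finset J, ∀ i ∉ T, ∀ n,
      M (∑ j ∈ T, v j.1 + v i.1) n - M (∑ j ∈ T, v j.1) n = M (v i.1) n - M 0 n := fun T => by
    induction T using Finset.induction_on with
    | empty => simp
    | insert j T hj ih =>
      intro i hi n
      rw [Finset.sum_insert hj, add_comm (v j.1), indep M (fun i : I => i.1) top v v1
        (fun h => hi (by simp [Subtype.ext h])), ih i fun h => hi (Finset.mem_insert_of_mem h)]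
  refine ks3 (ι := J) s.hp hP (a2 _ fun v => by simpa using s.hV v) c1 c2 m hm
    (ε := y * ∏ i, α i) (by rw [← e1, add_sub_cancel_left]; exact hc)
    (fun c hc => a2 _ fun n => R1 (((y * ∏ i, α i) * c) • n) fun i => ?_) (ML 0) m1 (fun i => D i.1)
    (fun i => i.2.some) (fun i => ML (v i.1) - ML 0) (fun i n hn => sub_eq_zero.2 ?_)
    (fun i => ⟨_, sub_ne_zero.2 (v2 i.1)⟩) (fun n h h' => R1 n fun i => ?_) fun T => ?_
  · rw [← Finset.mul_prod_erase _ α (Finset.mem_univ i)]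
    rcases α2 i with h | h
    · rw [mul_smul]
      exact (D i).smul_mem _ (kl i m h c hc n)
    · rw [mul_left_comm, mul_assoc, mul_smul]
      exact h _
  · exact (congrArg (fun t => M t n) (zero_add _)).symm.trans (v1 i.1 0 n hn)
  · rcases α2 i with k | k
    · exact h' ⟨i, k⟩
    · obtain ⟨y, c, hc, e1⟩ := hm.exists_inv (α1 i)
      rw [← one_smul S n, ← e1, add_smul, h c hc, add_zero, mul_smul]
      exact (D i).smul_mem _ (k n)
  obtain ⟨g, hg, e1⟩ := e.hs (∑ j ∈ T, v j.1)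
  refine ⟨⟨g, hg⟩, fun n => Eq.trans ?_ (m2 g n)⟩
  rw [e1]
  clear e1
  show M 0 n + ∑ j ∈ T, (M (v j.1) n - M 0 n) = _
  induction T using Finset.induction_on with
  | empty => simp
  | insert j T hj ih =>
    rw [Finset.sum_insert hj, Finset.sum_insert hj, add_comm (v j.1), ← s1 T j hj, ← ih]
    abel

theorem abs2 [Finite G] [Group.IsSolvable G] [IsPretransitive G X] [Finite X] [Nonempty X] [Finite V]
    {k : ℕ} (k0 : k ≠ 0) {w0 : G} (hw0 : w0 ∈ s.W) (cw : ∀ u ∈ e.W, u * w0 * u⁻¹ * w0⁻¹ ∈ s.O)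
    (n0 : ∃ v : V, w0 • v ≠ v) (ord : ∀ i, r ∣ p ^ i - 1 → k ∣ i) (sur : Function.Surjective s.τ)
    (RW : ∀ x, ∀ w ∈ s.W, ∀ v ∈ s.R x, w • v ∈ s.R x) (Ri : ∀ x, (s.R x).index = p ^ k)
    (R0 : ∀ v, (∀ x, v ∈ s.R x) → v = 0) : False := by
  classical
  have : Finite C := Finite.of_surjective e.c fun v => let ⟨w, _, h⟩ := e.hs v; ⟨w, h⟩
  obtain ⟨B, ⟨hB, on⟩, mn⟩ := wellFounded_lt.has_min {B : AddSubgroup C |
    (∀ (g : G) v, v ∈ B → g • v ∈ B) ∧ ∀ v, ∃ g, e.c g ∈ B ∧ s.τ g = v}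
    ⟨⊤, by simp, fun v => let ⟨g, h⟩ := sur v; ⟨g, trivial, h⟩⟩
  obtain ⟨D, ⟨hD, l⟩, mx⟩ := wellFounded_gt.has_min {D : AddSubgroup C |
    (∀ (g : G) v, v ∈ D → g • v ∈ D) ∧ D < B} ⟨⊥, by simp, bot_lt_iff_ne_bot.2 fun h => by
      obtain ⟨x⟩ := ‹Nonempty X›
      have h1 : s.R x = ⊤ := eq_top_iff.2 fun v _ => by
        obtain ⟨g, g1, rfl⟩ := on v
        rw [s.τ0 g (AddSubgroup.mem_bot.1 (h ▸ g1))]
        exact zero_mem _
      have := Ri x
      rw [h1, AddSubgroup.index_top] at this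
      exact (Nat.one_lt_pow k0 s.hp.one_lt).ne this⟩
  let _ := subAct B hB
  let _ := quoAct (G := G) (D.addSubgroupOf B) fun g v hv => hD g _ hv
  let π : C → B ⧸ D.addSubgroupOf B := fun t => if h : t ∈ B then (⟨t, h⟩ : B) else 0
  have hπ : ∀ t (h : t ∈ B), π t = (⟨t, h⟩ : B) := fun t h => dif_pos h
  have : Nontrivial (B ⧸ D.addSubgroupOf B) := QuotientAddGroup.nontrivial_iff.2 fun h =>
    l.not_ge (AddSubgroup.addSubgroupOf_eq_top.1 h)
  have πa : ∀ t ∈ B, ∀ t' ∈ B, π (t + t') = π t + π t' := fun t h t' h' => by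
    rw [hπ _ (add_mem h h'), hπ _ h, hπ _ h']; rfl
  have πs : ∀ (g : G), ∀ t ∈ B, π (g • t) = g • π t := fun g t h => by
    rw [hπ _ (hB g _ h), hπ _ h]; rfl
  have irr : ∀ Y : AddSubgroup (B ⧸ D.addSubgroupOf B), (∀ (g : G) u, u ∈ Y → g • u ∈ Y) →
      Y = ⊥ ∨ Y = ⊤ := fun Y hY => by
    let Y' := (Y.comap (QuotientAddGroup.mk' _)).map B.subtype
    have l1 : D ≤ Y' := fun v hv => ⟨⟨v, l.le hv⟩, by
      show (QuotientAddGroup.mk _ : B ⧸ D.addSubgroupOf B) ∈ Y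
      rw [(QuotientAddGroup.eq_zero_iff (⟨v, l.le hv⟩ : B)).2 hv]; exact zero_mem _, rfl⟩
    by_cases h : B ≤ Y'
    · refine Or.inr (eq_top_iff.2 ?_)
      rintro ⟨v⟩ -
      obtain ⟨w, hw, h1⟩ := h v.2
      exact (Subtype.ext h1 : w = v) ▸ hw
    · refine Or.inl (eq_bot_iff.2 ?_)
      rintro ⟨v⟩ hv
      by_contra h1
      refine mx Y' ⟨?_, ⟨AddSubgroup.map_subtype_le _, h⟩⟩
        ⟨l1, fun k => h1 ((QuotientAddGroup.eq_zero_iff v).2 (k ⟨v, hv, rfl⟩))⟩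
      rintro g _ ⟨w, hw, rfl⟩
      exact ⟨g • w, hY g _ hw, rfl⟩
  have no : ¬∀ v, ∃ g, e.c g ∈ B ∧ π (e.c g) = 0 ∧ s.τ g = v := fun h =>
    mn D ⟨hD, fun v => let ⟨g, g1, g2, g3⟩ := h v
      ⟨g, (QuotientAddGroup.eq_zero_iff (⟨_, g1⟩ : B)).1 (hπ _ g1 ▸ g2), g3⟩⟩ l
  have hO := triv s hB π πs irr (by
    rintro ⟨v⟩
    show p ^ a • (v : B ⧸ D.addSubgroupOf B) = 0
    rw [← QuotientAddGroup.mk_nsmul, show p ^ a • v = 0 from Subtype.ext (s.hC v)]; rfl) on no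
  obtain ⟨M, m1, m2, m3, m4⟩ := mapM s hB π πa πs (by
    rintro ⟨v⟩
    exact ⟨v, v.2, hπ _ _⟩) irr on no hO
  exact last2 s k0 hw0 cw n0 ord RW Ri R0 hO M m1 m2 m3 m4

end Pool.Agent.P.MP_6d14ae_al.F
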