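import Pool.Agent.P.MP_6d14ae_al.Z.Co

/-! A pairing between a translation layer and the additive group, over at most four points. -/

set_option autoImplicit false

namespace Pool.Agent.P.MP_6d14ae_al.F

open MulAction T Z

variable {G X Q : Type} [Group G] [AddCommGroup Q] [DistribMulAction G Q]

theorem comm3 (U : AddSubgroup Q) (w : G) (hw : ∀ v ∈ U, w • v ∈ U)
    (irr : ∀ D ≤ U, (∀ v ∈ D, w • v ∈ D) → D = ⊥ ∨ D = U) {f f' : G} (hf : ∀ v ∈ U, f • v ∈ U)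
    (hf' : ∀ v ∈ U, f' • v ∈ U) (c : ∀ v ∈ U, f • w • v = w • f • v)
    (c' : ∀ v ∈ U, f' • w • v = w • f' • v) : ∀ v ∈ U, f • f' • v = f' • f • v := fun v hv => by
  let φ := DistribMulAction.toAddMonoidEnd G Q
  let S := Subring.closure {φ w}
  have cm := Subring.isMulCommutative_closure (s := {φ w}) (by rintro _ rfl _ rfl; rfl)
  have a1 : ∀ ρ ∈ S, ∀ v ∈ U, ρ v ∈ U ∧ f • ρ v = ρ (f • v) ∧ f' • ρ v = ρ (f' • v) :=
    fun ρ hρ => by
      induction hρ using Subring.closure_induction with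
      | mem _ h =>
        obtain rfl := h
        exact fun v hv => ⟨hw v hv, c v hv, c' v hv⟩
      | zero => exact fun v _ => ⟨zero_mem _, smul_zero _, smul_zero _⟩
      | one => exact fun v hv => ⟨hv, rfl, rfl⟩
      | add a b _ _ ha hb =>
        exact fun v hv => ⟨add_mem (ha v hv).1 (hb v hv).1,
          (smul_add _ _ _).trans (congrArg₂ _ (ha v hv).2.1 (hb v hv).2.1),
          (smul_add _ _ _).trans (congrArg₂ _ (ha v hv).2.2 (hb v hv).2.2)⟩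
      | neg a _ ha =>
        exact fun v hv => ⟨neg_mem (ha v hv).1, (smul_neg _ _).trans (congrArg _ (ha v hv).2.1),
          (smul_neg _ _).trans (congrArg _ (ha v hv).2.2)⟩
      | mul a b _ _ ha hb =>
        exact fun v hv => ⟨(ha _ (hb v hv).1).1,
          (ha _ (hb v hv).1).2.1.trans (congrArg _ (hb v hv).2.1),
          (ha _ (hb v hv).1).2.2.trans (congrArg _ (hb v hv).2.2)⟩
  let D : AddSubgroup Q :=
    { carrier := {t | ∃ ρ ∈ S, ρ v = t}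
      zero_mem' := ⟨0, zero_mem _, rfl⟩
      add_mem' := by
        rintro _ _ ⟨a, ha, rfl⟩ ⟨b, hb, rfl⟩
        exact ⟨a + b, add_mem ha hb, rfl⟩
      neg_mem' := by
        rintro _ ⟨a, ha, rfl⟩
        exact ⟨-a, neg_mem ha, rfl⟩ }
  rcases irr D (by rintro _ ⟨a, ha, rfl⟩; exact (a1 a ha v hv).1) (by
    rintro _ ⟨a, ha, rfl⟩
    exact ⟨φ w * a, mul_mem (Subring.subset_closure rfl) ha, rfl⟩) with h | h
  · obtain rfl : v = 0 := AddSubgroup.mem_bot.1 (h ▸ ⟨1, one_mem _, rfl⟩)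
    simp
  obtain ⟨a, ha, e1⟩ : f • v ∈ D := h ▸ hf v hv
  obtain ⟨b, hb, e2⟩ : f' • v ∈ D := h ▸ hf' v hv
  have := DFunLike.congr_fun (congrArg Subtype.val (cm.is_comm.comm ⟨b, hb⟩ ⟨a, ha⟩)) v
  conv_lhs => rw [← e2, (a1 b hb v hv).2.1, ← e1]
  conv_rhs => rw [← e1, (a1 a ha v hv).2.2, ← e2]
  exact this

theorem pt [Finite Q] {p a : ℕ} (hp : p.Prime) (hC : ∀ v : Q, p ^ a • v = 0) (U : AddSubgroup Q)
    (U0 : U ≠ ⊥) (w : G) (hw : ∀ v ∈ U, w • v ∈ U)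
    (irr : ∀ D ≤ U, (∀ v ∈ D, w • v ∈ D) → D = ⊥ ∨ D = U) {f : G} {m : ℕ}
    (hm : (f ^ m) ^ p ^ a = 1) (hf : ∀ v ∈ U, f • v ∈ U) (c : ∀ v ∈ U, f • w • v = w • f • v) :
    ∀ v ∈ U, f ^ m • v = v := by
  have h1 : ∀ j : ℕ, ∀ v ∈ U, f ^ j • v ∈ U ∧ f ^ j • w • v = w • f ^ j • v := fun j => by
    induction j with
    | zero => simp
    | succ j ih =>
      intro v hv
      simp only [pow_succ', mul_smul]
      exact ⟨hf _ (ih v hv).1, by rw [(ih v hv).2, c _ (ih v hv).1]⟩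
  let P' : Subgroup G := Subgroup.zpowers (f ^ m)
  have fo : IsOfFinOrder (f ^ m) := isOfFinOrder_iff_pow_eq_one.2 ⟨_, pow_pos hp.pos a, hm⟩
  let _ := subAct (G := P') U fun g v hv => by
    obtain ⟨j, hj⟩ := fo.mem_powers_iff_mem_zpowers.2 g.2
    show g.1 • v ∈ U
    rw [← hj]
    show (f ^ m) ^ j • v ∈ U
    exact pow_mul f m j ▸ (h1 _ v hv).1
  obtain ⟨v, v0, hv⟩ := fixq (G := P') (A := U) hp (fun v => Subtype.ext (hC v)) ⊤
    (IsPGroup.to_subgroup (by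
      rintro ⟨_, k, rfl⟩
      refine ⟨a, Subtype.ext ?_⟩
      show ((f ^ m) ^ k) ^ p ^ a = 1
      rw [← zpow_natCast, ← zpow_mul, mul_comm, zpow_mul, zpow_natCast, hm, one_zpow]) ⊤)
    (D := ⊥) (by simp) (by
      have := (AddSubgroup.nontrivial_iff_ne_bot U).2 U0
      exact bot_ne_top)
  let D := U ⊓ fv ⊥ {f ^ m}
  have hD : ∀ v, v ∈ D ↔ v ∈ U ∧ f ^ m • v = v := fun v => by
    simp [D, mem_fv, sub_eq_zero]
  rcases irr D inf_le_left (fun v hv => (hD _).2 ⟨hw v hv.1, by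
    rw [(h1 m v hv.1).2, ((hD v).1 hv).2]⟩) with h | h
  · refine (v0 (AddSubgroup.mem_bot.2 (Subtype.ext (AddSubgroup.mem_bot.1 (h ▸ (hD v).2 ⟨v.2, ?_⟩))))).elim
    exact sub_eq_zero.1 (congrArg Subtype.val
      (AddSubgroup.mem_bot.1 (hv ⟨_, Subgroup.mem_zpowers _⟩ trivial)))
  · exact fun v hv => ((hD v).1 (h ▸ hv)).2

variable [MulAction G X]

/-- the data of the pairing -/
structure Lin (X Q : Type) [MulAction G X] [AddCommGroup Q] [DistribMulAction G Q]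
    (N Δ : Subgroup G) where
  c : G → Q
  b : X → Q
  Y : AddSubgroup Q
  hN : N.Normal
  hc : ∀ g h, c (g * h) = c g + g • c h
  hb : ∀ (g : G) x, b (g • x) = g • b x
  hg : AddSubgroup.closure (Set.range b) = ⊤
  mY : ∀ v, v ∈ Y ↔ ∀ n ∈ N, n • v = v
  mΔ : ∀ g, g ∈ Δ ↔ ∀ v, g • v - v ∈ Y
  NΔ : N ≤ Δ
  K0 : ∀ n ∈ N, (∀ z, n • b z = b z) → c n = 0
  cN : ∀ J : AddSubgroup Q, (∀ n ∈ N, ∀ v, n • v - v ∈ J) → ∀ n ∈ N, c n ∈ J
  bY : ∀ x, b x ∉ Y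

variable {N Δ : Subgroup G} (L : Lin X Q N Δ)

include L

theorem Lin.hY (g : G) (v : Q) (h : v ∈ L.Y) : g • v ∈ L.Y := (L.mY _).2 fun n hn => by
  have := (L.mY v).1 h _ (L.hN.conj_mem' n hn g)
  rwa [mul_smul, mul_smul, inv_smul_eq_iff] at this

theorem Lin.nΔ : Δ.Normal := ⟨fun g hg k => (L.mΔ _).2 fun v => by
  simpa [smul_sub, mul_smul] using L.hY k _ ((L.mΔ g).1 hg (k⁻¹ • v))⟩

theorem Lin.be {n : G} (hn : n ∈ N) {t t' : Q} (h : t - t' ∈ L.Y) : n • t - t = n • t' - t' := by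
  have := (L.mY _).1 h n hn
  rw [smul_sub] at this
  exact sub_eq_sub_iff_sub_eq_sub.1 this

theorem Lin.cb {n δ : G} (hn : n ∈ N) (hδ : δ ∈ Δ) (t : Q) :
    δ • (n • t - t) = (δ * n * δ⁻¹) • t - t := by
  rw [← L.be (L.hN.conj_mem n hn δ) ((L.mΔ δ).1 hδ t), smul_sub]
  simp [mul_smul]

theorem Lin.ad {n m : G} (hn : n ∈ N) (hm : m ∈ N) (t : Q) :
    (n * m) • t - t = (n • t - t) + (m • t - t) := by
  rw [← (L.mY _).1 ((L.mΔ m).1 (L.NΔ hm) t) n hn, smul_sub, mul_smul]; abel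

/-- the image of the layer under the pairing with a vector -/
def Lin.U (t : Q) : AddSubgroup Q where
  carrier := {v | ∃ n ∈ N, n • t - t = v}
  zero_mem' := ⟨1, one_mem _, by simp⟩
  add_mem' := by
    rintro _ _ ⟨n, hn, rfl⟩ ⟨m, hm, rfl⟩
    exact ⟨n * m, mul_mem hn hm, L.ad hn hm t⟩
  neg_mem' := by
    rintro _ ⟨n, hn, rfl⟩
    exact ⟨n⁻¹, inv_mem hn, eq_neg_of_add_eq_zero_right (by
      rw [← L.ad hn (inv_mem hn)]; simp)⟩

theorem Lin.Us (g : G) {t v : Q} (h : v ∈ L.U t) : g • v ∈ L.U (g • t) := by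
  obtain ⟨n, hn, rfl⟩ := h
  exact ⟨_, L.hN.conj_mem n hn g, by simp [mul_smul, smul_sub]⟩

theorem Lin.Ue {t t' : Q} (h : t - t' ∈ L.Y ∨ t + t' ∈ L.Y) : L.U t ≤ L.U t' := by
  rintro _ ⟨n, hn, rfl⟩
  rcases h with h | h
  · exact ⟨n, hn, (L.be hn h).symm⟩
  · rw [L.be hn (t' := -t') (by simpa using h), smul_neg, ← neg_sub', neg_mem_iff]
    exact ⟨n, hn, rfl⟩

theorem Lin.UΔ {δ : G} (hδ : δ ∈ Δ) (t : Q) : ∀ v ∈ L.U t, δ • v ∈ L.U t := fun _ h =>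
  L.Ue (Or.inl ((L.mΔ δ).1 hδ t)) (L.Us δ h)

theorem Lin.wn {n w : G} (hn : n ∈ N) (hw : w ∈ Δ) (t : Q) :
    (n⁻¹ * w * n * w⁻¹) • t - t = w • (n • t - t) - (n • t - t) := by
  have := L.ad hn (mul_mem (inv_mem hn) (L.hN.conj_mem n hn w)) t
  rw [L.cb hn hw, mul_inv_cancel_left] at *
  rw [this, add_sub_cancel_left]
  simp only [mul_assoc]

theorem Lin.cp {δ : G} (hδ : δ ∈ Δ) (m : ℕ) : L.c (δ ^ m) - m • L.c δ ∈ L.Y := by
  induction m with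
  | zero => simp [f_one L.hc]
  | succ m ih =>
    convert add_mem ih ((L.mΔ δ).1 hδ (L.c (δ ^ m))) using 1
    rw [pow_succ', L.hc, succ_nsmul]; abel

theorem Lin.tw {v w : G} (hv : v ∈ Δ) (hw : w ∈ Δ) (cw : L.c w = 0)
    (h : ∀ z, ∀ t ∈ L.U (L.b z), v • (w • t - t) = w • t - t) {n : G} (hn : n ∈ N) :
    (n⁻¹ * w * n * w⁻¹) • L.c v = L.c v := by
  let s := fun g : G => DistribSMul.toAddMonoidHom Q g - AddMonoidHom.id Q
  have h1 : L.c n ∈ ((s v).comp (s w)).ker := L.cN _ (fun m hm t => by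
    have : t ∈ (((s v).comp (s w)).comp (s m)).ker := by
      rw [eq_top_iff.2 (L.hg ▸ (AddSubgroup.closure_le _).2 (by
        rintro _ ⟨z, rfl⟩
        exact sub_eq_zero.2 (h z _ ⟨m, hm, rfl⟩)) : ⊤ ≤ (((s v).comp (s w)).comp (s m)).ker)]
      trivial
    exact this) n hn
  have h2 : v • (w • L.c n - L.c n) = w • L.c n - L.c n := sub_eq_zero.1 h1
  have n1 : n⁻¹ * w * n * w⁻¹ ∈ N := by
    simpa [mul_assoc] using mul_mem (inv_mem hn) (L.hN.conj_mem n hn w)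
  have h3 : L.c (n⁻¹ * w * n * w⁻¹) = w • L.c n - L.c n := by
    have a1 := f_div L.hc w 1
    rw [mul_one, f_one L.hc, cw, sub_self, smul_zero] at a1
    rw [mul_assoc, mul_assoc, f_div L.hc, L.hc, L.hc, a1, cw, smul_zero, add_zero, zero_add]
    exact (L.mY _).1 ((L.mΔ w).1 hw _) _ (inv_mem hn)
  have h4 := fun z => (L.cb n1 hv (L.b z)).symm.trans (by
    rw [L.wn hn hw, h z _ ⟨n, hn, rfl⟩, ← L.wn hn hw])
  generalize n⁻¹ * w * n * w⁻¹ = m at *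
  have h5 := L.K0 (m⁻¹ * (v * m * v⁻¹)) (mul_mem (inv_mem n1) (L.hN.conj_mem m n1 v)) fun z => by
    rw [mul_smul, sub_left_inj.1 (h4 z), inv_smul_smul]
  rw [f_div L.hc, smul_eq_zero_iff_eq, sub_eq_zero] at h5
  have h6 := L.hc (v * m * v⁻¹) v
  rw [inv_mul_cancel_right, L.hc, h5, h3, h2, add_comm, add_right_inj] at h6
  have h7 : (v * m * v⁻¹) • L.c v = m • L.c v := by
    have : L.c v ∈ (s (v * m * v⁻¹) - s m).ker := by
      rw [eq_top_iff.2 (L.hg ▸ (AddSubgroup.closure_le _).2 (by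
        rintro _ ⟨z, rfl⟩
        exact sub_eq_zero.2 (h4 z)) : ⊤ ≤ (s (v * m * v⁻¹) - s m).ker)]
      trivial
    exact sub_left_inj.1 (sub_eq_zero.1 this)
  exact h7 ▸ h6.symm

theorem Lin.main [Finite Q] {p a m k : ℕ} (hp : p.Prime) (p2 : p ≠ 2)
    (hC : ∀ v : Q, p ^ a • v = 0) (hm : ¬p ∣ m) (hG : ∀ h : G, (h ^ m) ^ p ^ a = 1) {w g : G}
    {x : X} (hw : w ∈ Δ) (cw : L.c w = 0)
    (irr : ∀ z, (∃ t ∈ L.U (L.b z), w • t ≠ t) → ∀ D ≤ L.U (L.b z), (∀ v ∈ D, w • v ∈ D) →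
      D = ⊥ ∨ D = L.U (L.b z))
    (hg : L.c g = L.b x) (g2 : g * g ∈ Δ) (k2 : ¬2 ∣ k) (kp : ¬p ∣ k)
    (cg : ∀ z, ∀ t ∈ L.U (L.b z), g ^ k • w • t = w • g ^ k • t)
    (cu : ∀ u z, ∀ t ∈ L.U (L.b z), (u * w * u⁻¹) • w • t = w • (u * w * u⁻¹) • t)
    (ax : ∃ t ∈ L.U (L.b x), w • t ≠ t)
    (T3 : g • L.b x - L.b x ∉ L.Y →
      (∀ z, g • L.b z - L.b z ∈ L.Y ∨ L.b z - L.b x ∈ L.Y ∨ L.b z - g • L.b x ∈ L.Y) ∧
      ((∃ u ∈ Δ, L.c u = L.b x) ∨ ∃ h : G, h • L.b x - L.b x ∈ L.Y ∧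
        g • h • g • L.b x - h • g • L.b x ∈ L.Y)) : False := by
  have nΔ := L.nΔ
  have h2 : ¬p ∣ 2 := fun h => p2 ((Nat.prime_dvd_prime_iff_eq hp Nat.prime_two).1 h)
  have dv : ∀ (D : AddSubgroup Q) (j : ℕ) v, ¬p ∣ j → j • v ∈ D → v ∈ D := fun D j v hj h =>
    acop D ((hp.coprime_iff_not_dvd.2 hj).symm.pow_right a) h (hC v ▸ zero_mem _)
  have n1 : ∀ n ∈ N, n⁻¹ * w * n * w⁻¹ ∈ N := fun n hn => by
    simpa [mul_assoc] using mul_mem (inv_mem hn) (L.hN.conj_mem n hn w)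
  have dw : ∀ (j : ℕ) t v, ¬p ∣ j → t - j • v ∈ L.Y → ∀ n ∈ N, n • t = t → n • v = v :=
    fun j t v hj h n hn e => sub_eq_zero.1 (AddSubgroup.mem_bot.1 (dv ⊥ j _ hj (by
      rw [smul_sub, smul_comm j, ← L.be hn h, e, sub_self]; exact zero_mem _)))
  have key : ∀ v ∈ Δ, (∀ z, (∃ t ∈ L.U (L.b z), w • t ≠ t) → ∀ t ∈ L.U (L.b z),
      v • w • t = w • v • t) → ∀ n ∈ N, (n⁻¹ * w * n * w⁻¹) • L.c v = L.c v := fun v hv h n hn =>
    dw m _ _ hm (L.cp hv m) _ (n1 n hn) (L.tw (pow_mem hv m) hw cw (fun z t ht => by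
      by_cases ex : ∃ t ∈ L.U (L.b z), w • t ≠ t
      · refine pt hp hC _ (fun e => ?_) w (L.UΔ hw _) (irr z ex) (hG v) (L.UΔ hv _) (h z ex) _
          (sub_mem (L.UΔ hw _ t ht) ht)
        obtain ⟨t, ht, t0⟩ := ex
        rw [e, AddSubgroup.mem_bot] at ht
        simp [ht] at t0
      · push_neg at ex
        simp [ex t ht]) hn)
  have fin : ∀ t, t - 2 • L.b x ∈ L.Y → (∀ n ∈ N, (n⁻¹ * w * n * w⁻¹) • t = t) → False :=
    fun t h1 h => by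
      obtain ⟨_, ⟨n, hn, rfl⟩, t0⟩ := ax
      refine t0 (sub_eq_zero.1 ?_)
      rw [← L.wn hn hw, dw 2 _ _ h2 h1 _ (n1 n hn) (h n hn), sub_self]
  obtain ⟨i, rfl⟩ : ∃ i, k = 2 * i + 1 := ⟨k / 2, by omega⟩
  have e1 : ∀ t, g ^ (2 * i + 1) • t - g • t ∈ L.Y := fun t => by
    rw [pow_succ, pow_mul, sq, mul_smul]
    exact (L.mΔ _).1 (pow_mem g2 i) _
  have e2 : (g * g) ^ (2 * i + 1) = g ^ (2 * i + 1) * g ^ (2 * i + 1) :=
    (Commute.refl g).mul_pow _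
  have e3 := L.cp g2 (2 * i + 1)
  have e4 := pow_mem g2 (2 * i + 1)
  rw [e2] at e3 e4
  generalize g ^ (2 * i + 1) = f at *
  rw [L.hc g, hg] at e3
  have st := fun n hn => dw _ _ _ kp e3 _ (n1 n hn) (key _ e4 (fun z _ t ht => by
    rw [mul_smul, cg z t ht, cg (f • z) _ (L.hb f z ▸ L.Us f ht), mul_smul]) n hn)
  by_cases h0 : g • L.b x - L.b x ∈ L.Y
  · exact fin _ (by convert h0 using 1; rw [two_smul]; abel) st
  obtain ⟨t1, t2⟩ := T3 h0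
  have FF : ∀ z, (∃ t ∈ L.U (L.b z), w • t ≠ t) → ∀ t ∈ L.U (L.b z), w • t = t → t = 0 :=
    fun z ex t ht e => by
      rcases irr z ex (L.U (L.b z) ⊓ fv ⊥ {w}) inf_le_left (fun v hv => ⟨L.UΔ hw _ v hv.1, by
        have : w • v = v := by simpa [mem_fv, sub_eq_zero] using hv.2
        rw [this]; exact hv.2⟩) with h | h
      · exact AddSubgroup.mem_bot.1 (h ▸ ⟨ht, by simp [mem_fv, e]⟩)
      · obtain ⟨t, ht, t0⟩ := ex
        rw [← h] at ht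
        exact (t0 (by simpa [mem_fv, sub_eq_zero] using ht.2)).elim
  have ax2 : ∃ t ∈ L.U (L.b (g • x)), w • t ≠ t :=
    let ⟨t, ht, t0⟩ := ax
    ⟨f • t, L.Ue (Or.inl (L.hb g x ▸ e1 _)) (L.Us f ht), fun e =>
      t0 (smul_left_cancel f ((cg x t ht).trans e))⟩
  have z2 : L.b x + g • L.b x ∈ L.Y := (L.mY _).2 fun n hn => by
    have a1 := L.wn hn hw (L.b x + g • L.b x)
    rw [st n hn, sub_self, eq_comm, sub_eq_zero] at a1
    have a2 : n • L.b x - L.b x ∈ L.U (L.b x) := ⟨n, hn, rfl⟩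
    have a3 : n • g • L.b x - g • L.b x ∈ L.U (L.b (g • x)) := ⟨n, hn, by rw [L.hb]⟩
    rw [← sub_eq_zero]
    rw [smul_add n, add_sub_add_comm] at a1 ⊢
    generalize n • L.b x - L.b x = s1 at *
    generalize n • g • L.b x - g • L.b x = s2 at *
    rcases irr x ax (L.U (L.b x) ⊓ L.U (L.b (g • x))) inf_le_left
      (fun v hv => ⟨L.UΔ hw _ v hv.1, L.UΔ hw _ v hv.2⟩) with h | h
    · have a4 : w • s1 - s1 = 0 := AddSubgroup.mem_bot.1 (h ▸ AddSubgroup.mem_inf.2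
        ⟨sub_mem (L.UΔ hw _ _ a2) a2, by
          convert sub_mem a3 (L.UΔ hw _ _ a3) using 1
          rw [sub_eq_sub_iff_add_eq_add, ← smul_add, a1, add_comm]⟩)
      obtain rfl := FF x ax _ a2 (sub_eq_zero.1 a4)
      exact FF _ ax2 _ (by simpa using a3) a1
    · exact FF _ ax2 _ (add_mem (inf_eq_left.1 h a2) a3) a1
  have e5 := (L.mΔ _).1 g2 (L.b x)
  rw [mul_smul] at e5
  rcases t2 with ⟨u, hu, e6⟩ | ⟨h, b1, b2⟩
  swap
  · have b3 := L.hY h _ z2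
    refine L.bY x (dv _ 2 _ h2 ?_)
    convert add_mem (sub_mem (sub_mem (sub_mem b3 b1) e5)
      (L.hY g _ (sub_mem (sub_mem b3 b1) z2))) b2 using 1
    simp only [two_smul, smul_add, smul_sub]
    abel
  have sg : ∀ z, ∀ t ∈ L.U (L.b z), f • t ∈ L.U (L.b z) := fun z t ht => L.Ue (by
    rcases t1 z with h | h | h
    · exact Or.inl (by simpa using add_mem (e1 (L.b z)) h)
    · refine Or.inr ?_
      convert add_mem (add_mem (add_mem (e1 (L.b z)) (L.hY g _ h)) z2) h using 1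
      rw [smul_sub]; abel
    · refine Or.inr ?_
      convert add_mem (add_mem (add_mem (add_mem (e1 (L.b z)) (L.hY g _ h)) e5) z2) h using 1
      rw [smul_sub]; abel) (L.Us f ht)
  refine fin (-L.c (u⁻¹ * (f * u * f))) ?_ fun n hn => by
    rw [smul_neg, key _ (by
      simpa [mul_assoc] using mul_mem (inv_mem hu) (mul_mem (nΔ.conj_mem u hu f) e4))
      (fun z ex t ht => by
        have a1 := comm3 _ w (L.UΔ hw _) (irr z ex) (sg z) (L.UΔ (nΔ.conj_mem w hw u) _) (cg z)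
          (cu u z) _ (L.UΔ hu _ _ (sg z t ht))
        simp only [mul_smul, inv_smul_smul] at a1 ⊢
        rw [cg z t ht, a1, inv_smul_smul]) n hn]
  rw [f_div L.hc, L.hc, L.hc, e6]
  rw [L.hc] at e3
  convert neg_mem (add_mem (add_mem (add_mem (add_mem (add_mem
    ((L.mΔ _).1 (inv_mem hu) (L.c f + f • L.b x + (f * u) • L.c f - L.b x)) e3)
    (nsmul_mem z2 (2 * i + 1))) (L.hY f _ ((L.mΔ u).1 hu (L.c f)))) (e1 (L.b x))) z2) using 1
  rw [two_smul, mul_smul, smul_sub f]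
  abel

end Pool.Agent.P.MP_6d14ae_al.F
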